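import Pool.Agent.H919R4.AS.Final
import Pool.Agent.TH38.ZT.Gen
import Pool.Agent.TH38.ZT.Fol

/-!
# Project PT: three-dimensional Poincare duality groups do not have Kazhdan's property (T)

Jobs: FHONE, INV, ULTRA, CLOSED, TWIST, HIL, TF, INF, ORI, DUAL, PDC.
-/

set_option autoImplicit false

namespace Pool.Agent.Q169.PT

open scoped Matrix
open Pool.Agent.H919R4.ZS (FinRes toRed L2 lregL augm)

noncomputable section

section rep

variable {G H : Type} [Group G] [NormedAddCommGroup H] [InnerProductSpace ℂ H]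

/-- A unitary representation of `G` on `H`. -/
structure Rep (G H : Type) [Group G] [NormedAddCommGroup H] [InnerProductSpace ℂ H] where
  /-- the action -/
  hom : G →* (H →L[ℂ] H)
  /-- the group acts by isometries -/
  norm : ∀ g v, ‖hom g v‖ = ‖v‖

/-- The action of the integral group ring. -/
def Rep.alg (π : Rep G H) : MonoidAlgebra ℤ G →+* (H →L[ℂ] H) :=
  MonoidAlgebra.liftNCRingHom (Int.castRingHom _) π.hom (fun x y => Int.cast_commute x (π.hom y))

/-- The action of the complex group ring: `∑ c_g π(g) v`. -/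
def Rep.sum (π : Rep G H) (c : G →₀ ℂ) (v : H) : H := c.sum fun g a => a • π.hom g v

/-- `b` is a cocycle: `b(gh) = b(g) + π(g) b(h)`. -/
def IsCoc (π : Rep G H) (b : G → H) : Prop := ∀ g h, b (g * h) = b g + π.hom g (b h)

/-- `H¹(G; π) = 0`: every cocycle is of the form `b(g) = π(g) w - w`. -/
def Van1 (π : Rep G H) : Prop := ∀ b, IsCoc π b → ∃ w, ∀ g, b g = π.hom g w - w

/-- The left regular representation, `(λ(g) f)(h) = f(g⁻¹ h)`. -/
def reg (G : Type) [Group G] : Rep G (L2 G) where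
  hom :=
    { toFun := lregL
      map_one' := by
        ext f h
        change f (1⁻¹ * h) = f h
        simp
      map_mul' := fun g k => by
        ext f h
        change f ((g * k)⁻¹ * h) = f (k⁻¹ * (g⁻¹ * h))
        simp [mul_assoc] }
  norm := fun g f => Pool.Agent.H919R4.ZS.norm_shift g f

/-- `π` is tempered (weakly contained in the regular representation): `‖π(c)‖ ≤ ‖λ(c)‖` for all
`c` in the complex group ring. -/
def Tempered (π : Rep G H) : Prop :=
  ∀ (c : G →₀ ℂ) (K : ℝ), (∀ f : L2 G, ‖(reg G).sum c f‖ ≤ K * ‖f‖) → ∀ v, ‖π.sum c v‖ ≤ K * ‖v‖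

/-- The coboundary of the cochains of `X` with values in `H`. -/
def dm (π : Rep G H) (X : FinRes G) (i : ℕ) (v : Fin (X.n i) → H) : Fin (X.n (i + 1)) → H :=
  fun k => ∑ j, π.alg (X.d i k j) (v j)

end rep

/-! ### The jobs -/

/-- **JOB FHONE.** If `H¹(G; π) = 0`, then the cochain complex of `X` with values in `π` is exact in
degree one.

PROOF. Write `pV x v = ∑_j π(x_j) v_j` for `x : Fin n → ℤ[G]`, `v : Fin n → H` (see `pV`,
`pV_vecMul`, `exists_lift`, `eps` in Pool/Agent/H919R4/ZS/Hat.lean and Contr.lean/Deriv.lean):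
`pV (y ᵥ* X.d i) v = pV y (dm π X i v)`, `pV (a • x) v = π(a) pV x v`. Let `dm π X 1 v = 0`. For `x`
with `eps X x = 0` choose `y` with `y ᵥ* X.d 0 = x` (`exists_lift`) and put `B x = pV y v`. This
does not depend on `y`: if `y ᵥ* X.d 0 = 0` then `y = u ᵥ* X.d 1` (`X.exact_succ`), so
`pV y v = pV u (dm π X 1 v) = 0`. So `B` is additive and `B (g • x) = π(g) B x`. Let `x0` be a vector
with `eps X x0 = 1` (`X.surj`). Then `b g = B (g • x0 - x0)` is a cocycle, hence
`b g = π(g) w₀ - w₀`. Put `B' x = B (x - eps(x) x0) + eps(x) w₀` for all `x`; `B'` is additive and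
`B' (g • x) = B (g • (x - eps(x) x0)) + eps(x) B (g • x0 - x0) + eps(x) w₀ = π(g) B' x`, so
`B' x = pV x w` with `w j = B' (e_j)`. For the rows of `X.d 0` (which have `eps = 0`) this gives
`(dm π X 0 w) k = pV (row k) w = B' (row k) = B (row k) = pV (e_k) v = v k`. -/
def S_FHONE : Prop :=
  ∀ (G H : Type) [Group G] [NormedAddCommGroup H] [InnerProductSpace ℂ H] (X : FinRes G)
    (π : Rep G H), Van1 π → ∀ v : Fin (X.n 1) → H, dm π X 1 v = 0 → ∃ w, dm π X 0 w = v

/-- **JOB INV.** Degree zero.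

PROOF. With `pV` as in FHONE, `pV x w` depends only on `eps X x`: if `eps X x = 0` then
`x = y ᵥ* X.d 0` and `pV x w = pV y (dm π X 0 w) = 0`. So with `eps X x0 = 1`, `u = pV x0 w`:
`π(g) u = pV (g • x0) w = u`, hence `u = 0`, and `w j = pV e_j w = (eps e_j) u = 0`. -/
def S_INV : Prop :=
  ∀ (G H : Type) [Group G] [NormedAddCommGroup H] [InnerProductSpace ℂ H] (X : FinRes G)
    (π : Rep G H), (∀ v, (∀ g, π.hom g v = v) → v = 0) → ∀ w, dm π X 0 w = 0 → w = 0

/-- **JOB ULTRA.** The ultrapower of a unitary representation along `Filter.hyperfilter ℕ`.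
`q` is meant for bounded sequences only.

PROOF. On the space `M` of bounded sequences (for instance `lp (fun _ : ℕ => H) ⊤`, or the
submodule of `ℕ → H`) consider the semi-inner product `⟪x, y⟫ = lim ⟪x n, y n⟫` along the
ultrafilter (the limit exists because bounded sequences of complex numbers are in a compact set,
`IsCompact.ultrafilter_le_nhds`/`Ultrafilter.lim`, and `limUnder`/`lim` is additive by uniqueness of
limits). `PreInnerProductSpace.Core` gives a seminormed space; `H'` is the completion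
(`UniformSpace.Completion M`, or of `SeparationQuotient M`), `q x` is the image of `x`. The maps
`x ↦ (π(g) x n)_n` are linear isometries of `M` and extend to `H'`
(`UniformSpace.Completion.map` or `LinearIsometry.extend`/`ContinuousLinearMap.extend`). -/
def S_ULTRA : Prop :=
  ∀ (G H : Type) [Group G] [NormedAddCommGroup H] [InnerProductSpace ℂ H] (π : Rep G H),
    ∃ (H' : Type) (_ : NormedAddCommGroup H') (_ : InnerProductSpace ℂ H') (_ : CompleteSpace H')
      (π' : Rep G H') (q : (ℕ → H) → H'),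
      (∀ x y : ℕ → H, (∃ C, ∀ n, ‖x n‖ ≤ C) → (∃ C, ∀ n, ‖y n‖ ≤ C) → q (x + y) = q x + q y) ∧
      (∀ (c : ℂ) (x : ℕ → H), (∃ C, ∀ n, ‖x n‖ ≤ C) → q (c • x) = c • q x) ∧
      (∀ (g : G) (x : ℕ → H), (∃ C, ∀ n, ‖x n‖ ≤ C) → π'.hom g (q x) = q fun n => π.hom g (x n)) ∧
      (∀ x : ℕ → H, (∃ C, ∀ n, ‖x n‖ ≤ C) →
        Filter.Tendsto (fun n => ‖x n‖) (Filter.hyperfilter ℕ : Filter ℕ) (nhds ‖q x‖)) ∧
      ∀ (v : H') (ε : ℝ), 0 < ε → ∃ x : ℕ → H, (∃ C, ∀ n, ‖x n‖ ≤ C) ∧ ‖v - q x‖ < ε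

/-- **JOB CLOSED** (hypotheses: ULTRA, FHONE). A spectral gap in degree one.

PROOF. If not, then for every `n` there is `v n : Fin (X.n 1) → H`, orthogonal to the image of
`dm π X 0`, with `∑ ‖v n j‖ ^ 2 = 1` (scale) and `∑ ‖dm π X 1 (v n) k‖ ^ 2 < 1 / (n + 1)`. Let `H'`,
`π'`, `q` be as in ULTRA. `π'` is tempered: `π'.sum c (q x) = q (n ↦ π.sum c (x n))` for bounded
`x`, so `‖π'.sum c (q x)‖ = lim ‖π.sum c (x n)‖ ≤ K lim ‖x n‖ = K ‖q x‖`, and the `q x` are dense
(`π'.sum c` is continuous). So `Van1 π'`. Let `v' j = q (n ↦ v n j)`. Then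
`dm π' X 1 v' k = q (n ↦ dm π X 1 (v n) k)` has norm `lim ‖dm π X 1 (v n) k‖ = 0`. By FHONE
`v' = dm π' X 0 w'`. Let `m j` be bounded sequences with `‖w' j - q (m j)‖` so small that
`‖v' k - dm π' X 0 (q ∘ m) k‖ < δ` for all `k` (continuity; `δ ^ 2 * X.n 1 < 1`). Since
`v' k - dm π' X 0 (q ∘ m) k = q (n ↦ v n k - dm π X 0 (m · n) k)` there is an `n` with
`‖v n k - dm π X 0 (fun j => m j n) k‖ < δ` for all `k`. As `v n` is orthogonal to the image of
`dm π X 0`, `1 = ∑ ‖v n k‖ ^ 2 ≤ ∑ ‖v n k - dm π X 0 _ k‖ ^ 2 < 1` (Pythagoras). -/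
def S_CLOSED : Prop :=
  ∀ (G H : Type) [Group G] [NormedAddCommGroup H] [InnerProductSpace ℂ H] (X : FinRes G)
    (π : Rep G H), Tempered π →
    (∀ (H' : Type) [NormedAddCommGroup H'] [InnerProductSpace ℂ H'] [CompleteSpace H']
      (π' : Rep G H'), Tempered π' → Van1 π') →
    ∃ ε : ℝ, 0 < ε ∧ ∀ v : Fin (X.n 1) → H,
      (∀ w : Fin (X.n 0) → H, ∑ k, inner ℂ (dm π X 0 w k) (v k) = 0) →
      ε * ∑ j, ‖v j‖ ^ 2 ≤ ∑ k, ‖dm π X 1 v k‖ ^ 2

/-- **JOB TWIST.** The twist of the regular representation by a character `w : G → {1, -1}`.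

PROOF. `π(g) f = w(g) λ(g) f`. Let `(U f)(h) = w(h) f(h)`, a linear isometry of `L2 G` with `U² = 1`.
`w(g) λ(g) = U λ(g) U`: `(U λ(g) U f)(h) = w(h) w(g⁻¹ h) f(g⁻¹ h) = w(g) f(g⁻¹ h)`. So
`π.sum c f = U (reg.sum c (U f))` and `π` is tempered. If `π(g) f = f` for all `g` then
`|f(h)| = |f(1)|` for all `h`, and `f = 0` if `G` is infinite (square summable; see
`Pool.Agent.H919R4.ZS.tendsto_cofinite`). Adjoints: for `a = single g r` and (hence)
`b = single g⁻¹ (w(g) r)`: `⟪w(g)² r λ(g⁻¹) x, y⟫ = ⟪x, r λ(g) y⟫`; both sides are additive in `a`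
(`b = b(a)` is determined by `a`, `b(a + a') = b(a) + b(a')`; induct with
`MonoidAlgebra.induction_linear`). -/
def S_TWIST : Prop :=
  ∀ (G : Type) [Group G] (w : G →* ℤˣ), ∃ π : Rep G (L2 G),
    (∀ g f, π.hom g f = ((w g : ℤ) : ℂ) • (reg G).hom g f) ∧ Tempered π ∧
    (Infinite G → ∀ f, (∀ g, π.hom g f = f) → f = 0) ∧
    ∀ a b : MonoidAlgebra ℤ G, (∀ g, b.coeff g = (w g : ℤ) * a.coeff g⁻¹) →
      ∀ x y : L2 G, inner ℂ (π.alg b x) y = inner ℂ x ((reg G).alg a y)

/-- **JOB HIL.** Hilbert spaces; `A'`, `B'` are the adjoints of `A`, `B`.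

PROOF. (1) `im B' = ker A'` (`hex` and `A' B' = (B A)* = 0`) is closed and `B'` is injective, so `B'`
is bounded below (`ContinuousLinearMap` with closed range, open mapping theorem; or
Pool/Agent/Q111/FT/Gap0.lean, `gap0` with `A := 0`, `B := B'`): `c ‖z‖ ≤ ‖B' z‖`. Then `B B'` is
self-adjoint and bounded below, hence onto (Lax-Milgram: `IsCoercive.continuousLinearEquivOfBilin`,
or `neu0` of Gap0.lean with `Q = univ`), so `B` is onto. (2) Let `B u = 0`. On the Hilbert space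
`K = ker B` (closed) `T = A A'` maps `K` to `im A ⊆ K`, and for `x ∈ K`, `x` is orthogonal to `im B'`
(`⟪B' y, x⟫ = ⟪y, B x⟫ = 0`), so `⟪T x, x⟫ = ‖A' x‖ ^ 2 ≥ ε ‖x‖ ^ 2`. So `T : K → K` is onto and
`u = A (A' x)`. (Alternatively: `D = A A' + B' B` satisfies `⟪D u, u⟫ ≥ ε' ‖u‖ ^ 2`, so `u = D x`;
`0 = B u = B B' (B x)`, and `B B'` is injective, so `B x = 0` and `u = A (A' x)`.) -/
def S_HIL : Prop :=
  ∀ (H₁ H₂ H₃ : Type) [NormedAddCommGroup H₁] [InnerProductSpace ℂ H₁] [CompleteSpace H₁]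
    [NormedAddCommGroup H₂] [InnerProductSpace ℂ H₂] [CompleteSpace H₂]
    [NormedAddCommGroup H₃] [InnerProductSpace ℂ H₃] [CompleteSpace H₃]
    (A : H₁ →L[ℂ] H₂) (B : H₂ →L[ℂ] H₃), (∀ x, B (A x) = 0) →
    (∀ z, ContinuousLinearMap.adjoint B z = 0 → z = 0) →
    (∀ u, ContinuousLinearMap.adjoint A u = 0 → ∃ z, ContinuousLinearMap.adjoint B z = u) →
    (∃ ε : ℝ, 0 < ε ∧ ∀ u, (∀ z, inner ℂ (ContinuousLinearMap.adjoint B z) u = 0) →
      ε * ‖u‖ ^ 2 ≤ ‖ContinuousLinearMap.adjoint A u‖ ^ 2) →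
    (∀ u, B u = 0 → ∃ x, A x = u) ∧ ∀ z, ∃ u, B u = z

/-- **JOB TF.** A group with a finite free resolution is torsion-free.

PROOF. Suppose `g ≠ 1` has finite order; replacing it by a power we may assume that the order is a
prime `p`. Let `s = g - 1` and `N = 1 + g + ⋯ + g ^ (p - 1)` in `ℤ[G]`, `s N = N s = 0`. Facts for
`x ∈ ℤ[G]` (hence for vectors, with multiplication from the left): `s x = 0` implies `x = N y`
for some `y`, and `N x = 0` implies `x = s y` (for `x ∈ ℤ[G]` choose representatives of the cosets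
`⟨g⟩ h`; `s x = 0` means that `x` is constant on these cosets, `N x = 0` that the sum over each
coset is zero). Claim: for every `i` and every cycle `x ∈ ℤ[G]^(n i)` (`x ᵥ* d (i - 1) = 0`, or
`eps x = 0` for `i = 0`): if `s x = 0` then there is a cycle `y` with `x = N y`, and if `N x = 0`
then there is a cycle `y` with `x = s y`. Downward induction on `i`; for `i > len` clear. Given `x`
of degree `i` with `s x = 0`: `x = z ᵥ* d i`, `s z` is a cycle of degree `i + 1` with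
`N (s z) = 0`, so `s z = s y` with a cycle `y` (by the claim in degree `i + 1`), so `z - y = N u`,
`x = (z - y) ᵥ* d i = N (u ᵥ* d i)`. In the same way with `s` and `N` exchanged. Now take `x0` with
`eps x0 = 1`: `x = s x0` is a cycle of degree `0` with `N x = 0`, so `s x0 = s y` with `eps y = 0`,
hence `x0 - y = N u`, and `1 = eps (x0 - y) = p * eps u`, a contradiction. -/
def S_TF : Prop :=
  ∀ (G : Type) [Group G] (_ : FinRes G) (g : G), IsOfFinOrder g → g = 1

/-- **JOB INF.** PROOF. If `G` is finite, let `N` be the sum of all group elements and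
`y j = X.aug j • N`. Then `(X.d 0 *ᵥ y) k = ∑_j d_kj (aug j) N = (∑_j augm(d_kj) aug j) N = 0`
(the rows of `X.d 0` have `eps = 0`; `a N = augm(a) N`). So `y` is in the kernel of `X.cobd 0`,
and as `X.cohomology 0` is trivial, `y = 0`, so all `aug j = 0`, which contradicts `X.surj`. -/
def S_INF : Prop :=
  ∀ (G : Type) [Group G] (X : FinRes G), Subsingleton (X.cohomology 0) → Infinite G

/-- The orientation: `ε` is an isomorphism of `H³(G; ℤ[G])` with `ℤ`, and `w` the orientation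
character. -/
structure Ori {G : Type} [Group G] (X : FinRes G) (w : G →* ℤˣ)
    (ε : (Fin (X.n 3) → MonoidAlgebra ℤ G) →+ ℤ) : Prop where
  surj : Function.Surjective ε
  ker : ∀ y, ε y = 0 ↔ ∃ z, X.d 2 *ᵥ z = y
  smul : ∀ y g, ε (fun j => y j * MonoidAlgebra.single g 1) = (w g : ℤ) * ε y

/-- **JOB ORI.** PROOF. `X.n 4 = 0`, so all `y` are in the kernel of `X.cobd 3`; `ε y` is the image
of the class of `y` under the isomorphism `e`. Right multiplication with `g` induces an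
automorphism of the additive group `X.cohomology 3`, hence of `ℤ`, which is multiplication with
`w(g) = ± 1`; `w (g h) = w g * w h` (apply both to a `y` with `ε y = 1`). -/
def S_ORI : Prop :=
  ∀ (G : Type) [Group G] (X : FinRes G), X.len ≤ 3 → Nonempty (X.cohomology 3 ≃+ ℤ) →
    ∃ w ε, Ori X w ε

/-- **JOB DUAL.** The dual resolution.

PROOF. Let `σ (∑ a_g g) = ∑ a_g w(g) g⁻¹`, an additive bijection with `σ (a b) = σ b σ a`,
`σ (σ a) = a`. Put `X'.n 0 = X.n 3`, `X'.n 1 = X.n 2`, `X'.n 2 = X.n 1`, `X'.n 3 = X.n 0`,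
`X'.n i = 0` for `i ≥ 4`, and `X'.d i = ((X.d (2 - i)).map σ)ᵀ` for `i ≤ 2` (define by pattern
matching; `e0`, `e1`, `e2` are then `Equiv.refl`), `X'.aug j = ε (e_j)` (`e_j = Pi.single j 1`),
`X'.len = 3`. For `x : Fin (X'.n i) → ℤ[G]` let `σ x = fun j => σ (x j)`. Then
`x ᵥ* X'.d i = σ (X.d (2 - i) *ᵥ σ x)`, and `∑_j augm (x j) * aug j = ε (σ x)` (by `Ori.smul`: for
`y = ∑_j ∑_g y_j(g) (e_j g)` one has `ε y = ∑_j ∑_g y_j(g) w(g) ε(e_j)`). `surj` and
`exact_zero` follow from `Ori`, `exact_succ` for `i = 0, 1, 2` from the triviality of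
`X.cohomology 2`, `1`, `0` (and `X.d (i + 1) * X.d i = 0`), the rest is trivial (`X'.n i = 0`). -/
def S_DUAL : Prop :=
  ∀ (G : Type) [Group G] (X : FinRes G), X.len ≤ 3 → (∀ i ≤ 2, Subsingleton (X.cohomology i)) →
    ∀ w ε, Ori X w ε → ∃ (X' : FinRes G) (e0 : Fin (X'.n 0) ≃ Fin (X.n 3))
      (e1 : Fin (X'.n 1) ≃ Fin (X.n 2)) (e2 : Fin (X'.n 2) ≃ Fin (X.n 1)),
      (∀ j k g, (X'.d 0 j k).coeff g = (w g : ℤ) * (X.d 2 (e0 k) (e1 j)).coeff g⁻¹) ∧
      ∀ j k g, (X'.d 1 j k).coeff g = (w g : ℤ) * (X.d 1 (e1 k) (e2 j)).coeff g⁻¹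

/-- **JOB PDC** (hypothesis: TF, and AMEN = `Pool.Agent.Q146.FT.amen`). The contradiction.

PROOF. By INF and TF there is an element `g` of infinite order; let `t = g * g`, `C = ⟨t⟩`. If `C`
has finite index use AMEN. If not, `Pool.Agent.H919R4.AS.coset` with `C`
(`Pool.Agent.TH38.ZT.amenable_zpowers`) says that the cohomology of `X` in degree two with
coefficients in `ℤ[G ⧸ C]` is trivial. Let `ε z₀ = 1`. Since `w t = (w g)² = 1`, `ε (z₀ t - z₀) = 0`
and `z₀ t - z₀ = X.d 2 *ᵥ y`. Let `P y = fun j => (y j).coeff.mapDomain (QuotientGroup.mk)` in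
`Fin n → (G ⧸ C →₀ ℤ)`; `cobdZ X (G ⧸ C) i (P y) = P (X.d i *ᵥ y)`, `P` is onto, `P (z t) = P z`,
and `P z = 0` implies `z = u t - u` for some `u` (compare Pool/Agent/Q169/FT/PD.lean, where
this is done with other conventions: `ringZ_apply`, `cobd_P`, `P_Q`, `ker_P`). So `P y` is a
cocycle, `P y = cobdZ (P x) = P (X.d 1 *ᵥ x)`, `y - X.d 1 *ᵥ x = u t - u`, and
`z₀ t - z₀ = X.d 2 *ᵥ y = (X.d 2 *ᵥ u) t - X.d 2 *ᵥ u`. So `z₀ - X.d 2 *ᵥ u` is invariant under right
multiplication with `t`, which has infinite order, so it is zero, and `1 = ε z₀ = 0`. -/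
def S_PDC : Prop :=
  ∀ (G : Type) [Group G] [Infinite G] (X : FinRes G) (w : G →* ℤˣ)
    (ε : (Fin (X.n 3) → MonoidAlgebra ℤ G) →+ ℤ), Ori X w ε →
    (∀ i, Subsingleton (X.homology (toRed G) i)) → False

end

end Pool.Agent.Q169.PT
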