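import Pool.Agent.Q169.PT.Stm

set_option autoImplicit false
set_option linter.unusedSectionVars false

namespace Pool.Agent.Q169.PT

open scoped Matrix
open Pool.Agent.H919R4.ZS (FinRes toRed augm eps eps_add eps_neg eps_sub eps_smul eps_zsmul
  eps_single eps_d exists_lift augm_single)

noncomputable section

variable {G H : Type} [Group G] [NormedAddCommGroup H] [InnerProductSpace ℂ H]

/-- pairing of a chain with a cochain -/
def pw (π : Rep G H) {n : ℕ} (x : Fin n → MonoidAlgebra ℤ G) (v : Fin n → H) : H :=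
  ∑ j, π.alg (x j) (v j)

variable (π : Rep G H)

lemma alg_single (g : G) (r : ℤ) : π.alg (MonoidAlgebra.single g r) = r • π.hom g := by
  change MonoidAlgebra.liftNC _ _ _ = _
  rw [MonoidAlgebra.liftNC_single]
  change ((r : ℤ) : H →L[ℂ] H) * π.hom g = r • π.hom g
  rw [← zsmul_eq_mul]

lemma pw_add {n : ℕ} (x y : Fin n → MonoidAlgebra ℤ G) (v : Fin n → H) :
    pw π (x + y) v = pw π x v + pw π y v := by
  simp [pw, Finset.sum_add_distrib]

lemma pw_zero {n : ℕ} (v : Fin n → H) : pw π (0 : Fin n → MonoidAlgebra ℤ G) v = 0 := by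
  simp [pw]

lemma pw_neg {n : ℕ} (x : Fin n → MonoidAlgebra ℤ G) (v : Fin n → H) :
    pw π (-x) v = - pw π x v := by
  simp [pw, Finset.sum_neg_distrib]

lemma pw_sub {n : ℕ} (x y : Fin n → MonoidAlgebra ℤ G) (v : Fin n → H) :
    pw π (x - y) v = pw π x v - pw π y v := by
  rw [sub_eq_add_neg, pw_add, pw_neg, sub_eq_add_neg]

lemma pw_smul {n : ℕ} (a : MonoidAlgebra ℤ G) (x : Fin n → MonoidAlgebra ℤ G) (v : Fin n → H) :
    pw π (a • x) v = π.alg a (pw π x v) := by
  simp [pw, map_sum]

lemma pw_vecMul (X : FinRes G) (i : ℕ) (x : Fin (X.n (i + 1)) → MonoidAlgebra ℤ G)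
    (v : Fin (X.n i) → H) : pw π (x ᵥ* X.d i) v = pw π x (dm π X i v) := by
  simp only [pw, dm, Matrix.vecMul, dotProduct, map_sum, map_mul,
    sum_apply, mul_apply_eq_comp]
  rw [Finset.sum_comm]

lemma pw_single {n : ℕ} (j : Fin n) (v : Fin n → H) :
    pw π (Pi.single j 1) v = v j := by
  rw [pw, Finset.sum_eq_single j]
  · simp
  · intro i _ hi; simp [Pi.single_eq_of_ne hi]
  · simp

/-- JOB INV -/
theorem inv : S_INV := by
  intro G H _ _ _ X π hi w hw
  have h0 : ∀ x, eps X x = 0 → pw π x w = 0 := by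
    intro x hx
    obtain ⟨y, rfl⟩ := exists_lift X x hx
    rw [pw_vecMul, hw]
    simp [pw]
  obtain ⟨x0, hx0⟩ := X.surj
  change eps X x0 = 1 at hx0
  have hu : pw π x0 w = 0 := by
    apply hi
    intro g
    have h1 := h0 ((MonoidAlgebra.single g 1 : MonoidAlgebra ℤ G) • x0 - x0) (by
      rw [eps_sub, eps_smul, augm_single, hx0]; norm_num)
    rw [pw_sub, pw_smul, alg_single, one_smul, sub_eq_zero] at h1
    exact h1
  funext j
  have h2 := h0 (Pi.single j 1 - ((X.aug j : ℤ) : MonoidAlgebra ℤ G) • x0) (by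
    rw [eps_sub, eps_single, eps_smul, map_intCast, hx0]; simp)
  rw [pw_sub, pw_single, pw_smul, hu, map_zero, sub_zero] at h2
  exact h2

/-- JOB FHONE -/
theorem fhone : S_FHONE := by
  intro G H _ _ _ X π hV v hv
  have hwd : ∀ y y' : Fin (X.n 1) → MonoidAlgebra ℤ G, y ᵥ* X.d 0 = y' ᵥ* X.d 0 →
      pw π y v = pw π y' v := by
    intro y y' h
    have h1 : (y - y') ᵥ* X.d 0 = 0 := by rw [Matrix.sub_vecMul, h, sub_self]
    obtain ⟨u, hu⟩ := (X.exact_succ 0 _).1 h1
    have h2 : pw π (y - y') v = 0 := by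
      rw [← hu, pw_vecMul, hv]
      simp [pw]
    rw [pw_sub, sub_eq_zero] at h2
    exact h2
  obtain ⟨x0, hx0⟩ := X.surj
  change eps X x0 = 1 at hx0
  have hγ : ∀ g : G, ∃ y, y ᵥ* X.d 0 = (MonoidAlgebra.single g 1 : MonoidAlgebra ℤ G) • x0 - x0 := by
    intro g
    apply exists_lift
    rw [eps_sub, eps_smul, augm_single, hx0]; norm_num
  choose γ hγ using hγ
  obtain ⟨w₀, hw₀⟩ := hV (fun g => pw π (γ g) v) (by
    intro g h
    have h1 : pw π (γ (g * h)) v =
        pw π (γ g + (MonoidAlgebra.single g 1 : MonoidAlgebra ℤ G) • γ h) v := by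
      apply hwd
      rw [Matrix.add_vecMul, Matrix.smul_vecMul, hγ, hγ, hγ, smul_sub, smul_smul,
        MonoidAlgebra.single_mul_single, one_mul]
      abel
    change pw π (γ (g * h)) v = pw π (γ g) v + π.hom g (pw π (γ h) v)
    rw [h1, pw_add, pw_smul, alg_single, one_smul])
  have hζ : ∀ j : Fin (X.n 0), ∃ y, y ᵥ* X.d 0 = Pi.single j 1 - X.aug j • x0 := by
    intro j
    apply exists_lift
    rw [eps_sub, eps_single, eps_zsmul, hx0]; ring
  choose ζ hζ using hζ
  let w : Fin (X.n 0) → H := fun j => pw π (ζ j) v + X.aug j • w₀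
  let K : AddSubgroup (Fin (X.n 0) → MonoidAlgebra ℤ G) :=
    { carrier := {x | ∃ y, y ᵥ* X.d 0 = x - eps X x • x0 ∧ pw π x w = pw π y v + eps X x • w₀}
      zero_mem' := by
        have e0 : eps X 0 = 0 := by
          have := eps_sub X 0 0
          rwa [sub_self, sub_self] at this
        refine ⟨0, ?_, ?_⟩
        · rw [e0, zero_smul, sub_zero, Matrix.zero_vecMul]
        · rw [e0, zero_smul, pw_zero, pw_zero, add_zero]
      add_mem' := by
        rintro x x' ⟨y, h1, h2⟩ ⟨y', h1', h2'⟩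
        refine ⟨y + y', ?_, ?_⟩
        · rw [Matrix.add_vecMul, h1, h1', eps_add, add_smul]
          abel
        · rw [pw_add, h2, h2', pw_add, eps_add, add_smul]
          abel
      neg_mem' := by
        rintro x ⟨y, h1, h2⟩
        refine ⟨-y, ?_, ?_⟩
        · rw [Matrix.neg_vecMul, h1, eps_neg, neg_smul]
          abel
        · rw [pw_neg, h2, pw_neg, eps_neg, neg_smul]
          abel }
  have hK : ∀ (j : Fin (X.n 0)) (a : MonoidAlgebra ℤ G), Pi.single j a ∈ K := by
    intro j a
    induction a using MonoidAlgebra.induction_linear with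
    | zero => rw [Pi.single_zero]; exact K.zero_mem
    | add a b ha hb => rw [Pi.single_add]; exact K.add_mem ha hb
    | single g r =>
      have e1 : (Pi.single j (MonoidAlgebra.single g r) : Fin (X.n 0) → MonoidAlgebra ℤ G) =
          (MonoidAlgebra.single g r : MonoidAlgebra ℤ G) • Pi.single j 1 := by
        rw [← Pi.single_smul, smul_eq_mul, mul_one]
      have e2 : (MonoidAlgebra.single g r : MonoidAlgebra ℤ G) =
          r • (MonoidAlgebra.single g 1 : MonoidAlgebra ℤ G) := by
        rw [MonoidAlgebra.smul_single, smul_eq_mul, mul_one]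
      rw [e1]
      refine ⟨r • ((MonoidAlgebra.single g 1 : MonoidAlgebra ℤ G) • ζ j + X.aug j • γ g), ?_, ?_⟩
      · rw [Matrix.smul_vecMul, Matrix.add_vecMul, Matrix.smul_vecMul, Matrix.smul_vecMul, hζ, hγ,
          eps_smul, augm_single, eps_single, e2, smul_assoc, ← smul_smul, ← smul_sub]
        congr 1
        rw [smul_sub, smul_comm (MonoidAlgebra.single g 1 : MonoidAlgebra ℤ G) (X.aug j) x0,
          smul_sub (X.aug j)]
        abel
      · have h3 : pw π (Pi.single j 1) w = pw π (ζ j) v + X.aug j • w₀ := pw_single π j w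
        have h4 : ∀ (m : ℤ) (x : Fin (X.n 1) → MonoidAlgebra ℤ G), pw π (m • x) v = m • pw π x v := by
          intro m x
          have := map_zsmul (⟨⟨fun x => pw π x v, pw_zero π v⟩, fun a b => pw_add π a b v⟩ :
            (Fin (X.n 1) → MonoidAlgebra ℤ G) →+ H) m x
          exact this
        have h5 : pw π (γ g) v = π.hom g w₀ - w₀ := hw₀ g
        rw [pw_smul, alg_single, h3, h4, pw_add, pw_smul, alg_single, h4, h5, eps_smul, augm_single,
          eps_single, one_smul]
        change r • π.hom g (pw π (ζ j) v + X.aug j • w₀) = _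
        rw [map_add, map_zsmul]
        module
  have hall : ∀ x, x ∈ K := by
    intro x
    rw [← Finset.univ_sum_single x]
    exact K.sum_mem fun j _ => hK j _
  refine ⟨w, ?_⟩
  funext k
  obtain ⟨y, h1, h2⟩ := hall (X.d 0 k)
  have e0 : (Pi.single k 1 : Fin (X.n 1) → MonoidAlgebra ℤ G) ᵥ* X.d 0 = X.d 0 k := by
    funext j; simp [Matrix.vecMul, dotProduct, Pi.single_apply]
  have e1 : eps X (X.d 0 k) = 0 := by rw [← e0, eps_d]
  rw [e1, zero_smul, sub_zero] at h1
  rw [e1, zero_smul, add_zero] at h2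
  have h3 := hwd y (Pi.single k 1) (by rw [h1, e0])
  rw [pw_single] at h3
  change pw π (X.d 0 k) w = v k
  rw [h2, h3]

end

end Pool.Agent.Q169.PT
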