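import Pool.Agent.Q169.PT.Stm

set_option autoImplicit false
set_option linter.unusedSectionVars false

namespace Pool.Agent.Q169.PT.Du

open scoped Matrix
open Pool.Agent.H919R4.ZS (FinRes toRed augm eps augm_single d_mul_d)

noncomputable section

variable {G : Type} [Group G] (w : G →* ℤˣ)

/-- `∑ a_g g ↦ ∑ a_g w(g) g⁻¹` -/
def sg : MonoidAlgebra ℤ G →+ MonoidAlgebra ℤ G :=
  (MonoidAlgebra.coeffAddEquiv (R := ℤ) (M := G)).symm.toAddMonoidHom.comp
    ((Finsupp.liftAddHom fun g => (Finsupp.singleAddHom g⁻¹).comp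
      (AddMonoidHom.mulLeft ((w g : ℤˣ) : ℤ))).comp
        (MonoidAlgebra.coeffAddEquiv (R := ℤ) (M := G)).toAddMonoidHom)

lemma sg_single (g : G) (r : ℤ) :
    sg w (MonoidAlgebra.single g r) = MonoidAlgebra.single g⁻¹ ((w g : ℤ) * r) := by
  change (MonoidAlgebra.coeffAddEquiv (R := ℤ) (M := G)).symm
    (Finsupp.liftAddHom _ (Finsupp.single g r)) = _
  rw [Finsupp.liftAddHom_apply_single]
  rfl

lemma w_inv (g : G) : ((w g⁻¹ : ℤˣ) : ℤ) = w g := by
  rw [map_inv, Int.units_inv_eq_self]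

lemma w_sq (g : G) : ((w g : ℤˣ) : ℤ) * w g = 1 := by
  have := Int.units_mul_self (w g)
  exact congrArg Units.val this

lemma sg_sg (a : MonoidAlgebra ℤ G) : sg w (sg w a) = a := by
  induction a using MonoidAlgebra.induction_linear with
  | zero => simp
  | add x y hx hy => rw [map_add, map_add, hx, hy]
  | single g r => rw [sg_single, sg_single, inv_inv, w_inv, ← mul_assoc, w_sq, one_mul]

lemma sg_mul (a b : MonoidAlgebra ℤ G) : sg w (a * b) = sg w b * sg w a := by
  induction a using MonoidAlgebra.induction_linear with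
  | zero => simp
  | add x y hx hy => rw [add_mul, map_add, hx, hy, map_add, mul_add]
  | single g r =>
    induction b using MonoidAlgebra.induction_linear with
    | zero => simp
    | add x y hx hy => rw [mul_add, map_add, hx, hy, map_add, add_mul]
    | single h s =>
      rw [MonoidAlgebra.single_mul_single, sg_single, sg_single, sg_single,
        MonoidAlgebra.single_mul_single, mul_inv_rev, map_mul]
      congr 1
      push_cast
      ring

lemma sg_coeff (a : MonoidAlgebra ℤ G) (g : G) : (sg w a).coeff g = (w g : ℤ) * a.coeff g⁻¹ := by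
  induction a using MonoidAlgebra.induction_linear with
  | zero => simp
  | add x y hx hy =>
    rw [map_add, MonoidAlgebra.coeff_add, MonoidAlgebra.coeff_add, Finsupp.add_apply,
      Finsupp.add_apply, hx, hy, mul_add]
  | single h r =>
    rw [sg_single, MonoidAlgebra.coeff_single, MonoidAlgebra.coeff_single]
    by_cases e : h⁻¹ = g
    · subst e
      rw [Finsupp.single_eq_same, inv_inv, Finsupp.single_eq_same, w_inv]
    · rw [Finsupp.single_eq_of_ne (Ne.symm e), Finsupp.single_eq_of_ne, mul_zero]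
      intro e'
      exact e (by rw [← e', inv_inv])

lemma sg_inj {a b : MonoidAlgebra ℤ G} (h : sg w a = sg w b) : a = b := by
  rw [← sg_sg w a, h, sg_sg]

/-- the dual matrix -/
def dm' {a b : ℕ} (D : Matrix (Fin a) (Fin b) (MonoidAlgebra ℤ G)) :
    Matrix (Fin b) (Fin a) (MonoidAlgebra ℤ G) := fun j k => sg w (D k j)

/-- the dual vector -/
def sv {a : ℕ} (x : Fin a → MonoidAlgebra ℤ G) : Fin a → MonoidAlgebra ℤ G := fun j => sg w (x j)

lemma sv_sv {a : ℕ} (x : Fin a → MonoidAlgebra ℤ G) : sv w (sv w x) = x :=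
  funext fun j => sg_sg w (x j)

lemma sv_zero {a : ℕ} : sv w (0 : Fin a → MonoidAlgebra ℤ G) = 0 := funext fun _ => map_zero _

lemma sv_inj {a : ℕ} {x y : Fin a → MonoidAlgebra ℤ G} (h : sv w x = sv w y) : x = y := by
  rw [← sv_sv w x, h, sv_sv]

lemma vecMul_dm' {a b : ℕ} (D : Matrix (Fin a) (Fin b) (MonoidAlgebra ℤ G))
    (x : Fin b → MonoidAlgebra ℤ G) : x ᵥ* dm' w D = sv w (D *ᵥ sv w x) := by
  funext k
  change ∑ j, x j * sg w (D k j) = sg w (∑ j, D k j * sg w (x j))
  rw [map_sum]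
  exact Finset.sum_congr rfl fun j _ => by rw [sg_mul, sg_sg]

lemma iff_dual {a b c : ℕ} (D : Matrix (Fin a) (Fin b) (MonoidAlgebra ℤ G))
    (D' : Matrix (Fin b) (Fin c) (MonoidAlgebra ℤ G))
    (h : ∀ y, D *ᵥ y = 0 ↔ ∃ z, D' *ᵥ z = y) (x : Fin b → MonoidAlgebra ℤ G) :
    x ᵥ* dm' w D = 0 ↔ ∃ y, y ᵥ* dm' w D' = x := by
  rw [vecMul_dm']
  constructor
  · intro hx
    have h1 : D *ᵥ sv w x = 0 := by
      apply sv_inj w
      rw [hx, sv_zero]
    obtain ⟨z, hz⟩ := (h _).1 h1
    refine ⟨sv w z, ?_⟩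
    rw [vecMul_dm', sv_sv, hz, sv_sv]
  · rintro ⟨y, rfl⟩
    rw [vecMul_dm', sv_sv, (h _).2 ⟨_, rfl⟩, sv_zero]

lemma of_coh (X : FinRes G) (k : ℕ) (h : Subsingleton (X.cohomology k))
    (z : Fin (X.n k) → MonoidAlgebra ℤ G) (hz : X.d k *ᵥ z = 0) : z ∈ X.coboundaries k := by
  rw [QuotientAddGroup.subsingleton_iff, AddSubgroup.addSubgroupOf_eq_top] at h
  exact h hz

lemma coh_iff (X : FinRes G) (k : ℕ) (h : Subsingleton (X.cohomology (k + 1)))
    (y : Fin (X.n (k + 1)) → MonoidAlgebra ℤ G) : X.d (k + 1) *ᵥ y = 0 ↔ ∃ z, X.d k *ᵥ z = y := by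
  constructor
  · intro hy
    exact of_coh X (k + 1) h y hy
  · rintro ⟨z, rfl⟩
    rw [Matrix.mulVec_mulVec, d_mul_d, Matrix.zero_mulVec]

lemma eps_dual (X : FinRes G) (ε : (Fin (X.n 3) → MonoidAlgebra ℤ G) →+ ℤ) (hO : Ori X w ε)
    (x : Fin (X.n 3) → MonoidAlgebra ℤ G) :
    ∑ j, augm G (x j) * ε (Pi.single j 1) = ε (sv w x) := by
  have h1 : ∀ (j : Fin (X.n 3)) (a : MonoidAlgebra ℤ G),
      ε (Pi.single j (sg w a)) = augm G a * ε (Pi.single j 1) := by
    intro j a
    induction a using MonoidAlgebra.induction_linear with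
    | zero => simp
    | add a b ha hb => rw [map_add, Pi.single_add, map_add, ha, hb, map_add, add_mul]
    | single g r =>
      rw [sg_single, augm_single]
      have e1 : (Pi.single j (MonoidAlgebra.single g⁻¹ ((w g : ℤ) * r)) :
          Fin (X.n 3) → MonoidAlgebra ℤ G) = ((w g : ℤ) * r) •
            (fun i => (Pi.single j 1 : Fin (X.n 3) → MonoidAlgebra ℤ G) i *
              MonoidAlgebra.single g⁻¹ 1) := by
        funext i
        rw [Pi.smul_apply]
        by_cases hi : i = j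
        · subst hi
          rw [Pi.single_eq_same, Pi.single_eq_same, one_mul, MonoidAlgebra.smul_single,
            smul_eq_mul, mul_one]
        · rw [Pi.single_eq_of_ne hi, Pi.single_eq_of_ne hi, zero_mul, smul_zero]
      rw [e1, map_zsmul, hO.smul, w_inv, smul_eq_mul]
      linear_combination (r * ε (Pi.single j 1)) * w_sq w g
  have h2 : sv w x = ∑ j, Pi.single j (sg w (x j)) := (Finset.univ_sum_single (sv w x)).symm
  rw [h2, map_sum]
  exact Finset.sum_congr rfl fun j _ => (h1 j (x j)).symm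

variable (X : FinRes G)

/-- the ranks -/
def nn : ℕ → ℕ
  | 0 => X.n 3
  | 1 => X.n 2
  | 2 => X.n 1
  | 3 => X.n 0
  | _ + 4 => 0

/-- the differentials -/
def ddl : ∀ i, Matrix (Fin (nn X (i + 1))) (Fin (nn X i)) (MonoidAlgebra ℤ G)
  | 0 => dm' w (X.d 2)
  | 1 => dm' w (X.d 1)
  | 2 => dm' w (X.d 0)
  | _ + 3 => 0

lemma case2 (hc : Subsingleton (X.cohomology 0)) (x : Fin (X.n 0) → MonoidAlgebra ℤ G)
    (D0 : Matrix (Fin 0) (Fin (X.n 0)) (MonoidAlgebra ℤ G)) :
    x ᵥ* dm' w (X.d 0) = 0 ↔ ∃ y : Fin 0 → MonoidAlgebra ℤ G, y ᵥ* D0 = x := by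
  have h3 : ∀ y : Fin 0 → MonoidAlgebra ℤ G, y ᵥ* D0 = 0 := by
    intro y
    funext k
    change ∑ j : Fin 0, y j * D0 j k = 0
    rw [Finset.univ_eq_empty, Finset.sum_empty]
  rw [vecMul_dm']
  constructor
  · intro hx
    have h1 : X.d 0 *ᵥ sv w x = 0 := by
      apply sv_inj w
      rw [hx, sv_zero]
    have h2 : sv w x ∈ (⊥ : AddSubgroup (Fin (X.n 0) → MonoidAlgebra ℤ G)) :=
      of_coh X 0 hc _ h1
    rw [AddSubgroup.mem_bot] at h2
    refine ⟨fun j => j.elim0, ?_⟩
    apply sv_inj w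
    rw [h2, h3, sv_zero]
  · rintro ⟨y, rfl⟩
    rw [h3, sv_zero, Matrix.mulVec_zero, sv_zero]

/-- the dual resolution -/
def dualRes (hc : ∀ i ≤ 2, Subsingleton (X.cohomology i))
    (ε : (Fin (X.n 3) → MonoidAlgebra ℤ G) →+ ℤ) (hO : Ori X w ε) : FinRes G where
  len := 3
  n := nn X
  d := ddl w X
  aug := fun j => ε (Pi.single j 1)
  n_eq_zero := by
    intro i hi
    match i with
    | 0 => omega
    | 1 => omega
    | 2 => omega
    | 3 => omega
    | i + 4 => rfl
  surj := by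
    obtain ⟨z, hz⟩ := hO.surj 1
    refine ⟨sv w z, ?_⟩
    rw [← hz]
    have := eps_dual w X ε hO (sv w z)
    rw [sv_sv] at this
    exact this
  exact_zero := by
    intro x
    have h1 : ∑ j, augm G (x j) * ε (Pi.single j 1) = ε (sv w x) := eps_dual w X ε hO x
    change ∑ j, augm G (x j) * ε (Pi.single j 1) = 0 ↔ ∃ y, y ᵥ* dm' w (X.d 2) = x
    rw [h1, hO.ker]
    constructor
    · rintro ⟨z, hz⟩
      refine ⟨sv w z, ?_⟩
      rw [vecMul_dm', sv_sv, hz]
      exact sv_sv w x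
    · rintro ⟨y, rfl⟩
      refine ⟨sv w y, ?_⟩
      rw [vecMul_dm', sv_sv]
  exact_succ := by
    intro i x
    match i with
    | 0 => exact iff_dual w (X.d 2) (X.d 1) (coh_iff X 1 (hc 2 le_rfl)) x
    | 1 => exact iff_dual w (X.d 1) (X.d 0) (coh_iff X 0 (hc 1 (by norm_num))) x
    | 2 => exact case2 w X (hc 0 (by norm_num)) x (ddl w X 3)
    | i + 3 =>
      constructor
      · intro _
        exact ⟨fun j => j.elim0, funext fun k => k.elim0⟩
      · intro _
        funext k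
        cases i with
        | zero =>
          change ∑ j : Fin 0, x j * ddl w X 3 j k = 0
          rw [Finset.univ_eq_empty, Finset.sum_empty]
        | succ i => exact k.elim0

/-- JOB DUAL -/
theorem dual : S_DUAL := by
  intro G _ X hlen hc w ε hO
  refine ⟨dualRes w X hc ε hO, Equiv.refl _, Equiv.refl _, Equiv.refl _, ?_, ?_⟩
  · intro j k g
    exact sg_coeff w _ g
  · intro j k g
    exact sg_coeff w _ g

end

end Pool.Agent.Q169.PT.Du
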