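import Pool.Agent.Q169.PT.Stm
import Pool.Agent.Q169.FT.PD
import Pool.Agent.Q146.FT.Amen

set_option autoImplicit false

namespace Pool.Agent.Q169.PT

open scoped Matrix
open Pool.Agent.H919R4.ZS (FinRes toRed)
open Pool.Agent.H919R4.AS (ringZ cobdZ coboundariesZ)
open Pool.Agent.Q169.FT.PD (ringZ_single exact_coset)

noncomputable section

variable {G : Type} [Group G]

/-- the image in the permutation module -/
def Mk (C : Subgroup G) : MonoidAlgebra ℤ G →+ (G ⧸ C →₀ ℤ) where
  toFun a := a.coeff.mapDomain QuotientGroup.mk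
  map_zero' := by simp
  map_add' a b := by rw [MonoidAlgebra.coeff_add, Finsupp.mapDomain_add]

lemma Mk_single (C : Subgroup G) (g : G) (r : ℤ) :
    Mk C (MonoidAlgebra.single g r) = Finsupp.single (QuotientGroup.mk g) r := by
  change (MonoidAlgebra.single g r).coeff.mapDomain QuotientGroup.mk = _
  rw [MonoidAlgebra.coeff_single, Finsupp.mapDomain_single]

lemma ringZ_Mk (C : Subgroup G) (a b : MonoidAlgebra ℤ G) :
    ringZ G (G ⧸ C) a (Mk C b) = Mk C (a * b) := by
  induction a using MonoidAlgebra.induction_linear with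
  | zero => rw [map_zero, zero_mul, map_zero]; rfl
  | add x y hx hy =>
    rw [map_add, add_mul, map_add, ← hx, ← hy]
    rfl
  | single g r =>
    induction b using MonoidAlgebra.induction_linear with
    | zero => rw [mul_zero, map_zero, map_zero]
    | add x y hx hy => rw [mul_add, map_add, map_add, map_add, hx, hy]
    | single h s =>
      rw [Mk_single, ringZ_single, MonoidAlgebra.single_mul_single, Mk_single]
      rfl

/-- the section -/
def Sec (C : Subgroup G) : (G ⧸ C →₀ ℤ) →+ MonoidAlgebra ℤ G :=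
  Finsupp.liftAddHom fun x =>
    { toFun := fun r => MonoidAlgebra.single (Quotient.out x) r
      map_zero' := by simp
      map_add' := fun a b => MonoidAlgebra.single_add _ _ _ }

lemma Sec_single (C : Subgroup G) (x : G ⧸ C) (r : ℤ) :
    Sec C (Finsupp.single x r) = MonoidAlgebra.single (Quotient.out x) r := by
  simp [Sec]

lemma Mk_Sec (C : Subgroup G) (x : G ⧸ C →₀ ℤ) : Mk C (Sec C x) = x := by
  induction x using Finsupp.induction_linear with
  | zero => simp
  | add a b ha hb => rw [map_add, map_add, ha, hb]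
  | single x r =>
    rw [Sec_single, Mk_single]
    congr 1
    exact Quotient.out_eq x

/-- right multiplication -/
def Rt (t : G) : MonoidAlgebra ℤ G →+ MonoidAlgebra ℤ G := AddMonoidHom.mulRight (MonoidAlgebra.single t 1)

lemma Rt_apply (t : G) (a : MonoidAlgebra ℤ G) : Rt t a = a * MonoidAlgebra.single t 1 := rfl

lemma Rt_mul (s t : G) (a : MonoidAlgebra ℤ G) : Rt t (Rt s a) = Rt (s * t) a := by
  rw [Rt_apply, Rt_apply, Rt_apply, mul_assoc, MonoidAlgebra.single_mul_single, one_mul]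

lemma Rt_one (a : MonoidAlgebra ℤ G) : Rt 1 a = a := by
  rw [Rt_apply]
  exact mul_one a

lemma Rt_pow (t : G) (k : ℤ) (z : MonoidAlgebra ℤ G) : ∃ w, Rt (t ^ k) z - z = Rt t w - w := by
  have hn : ∀ (k : ℕ) (z : MonoidAlgebra ℤ G), ∃ w, Rt (t ^ k) z - z = Rt t w - w := by
    intro k
    induction k with
    | zero => intro z; exact ⟨0, by rw [pow_zero, Rt_one]; simp⟩
    | succ k ih =>
      intro z
      obtain ⟨w, hw⟩ := ih z
      refine ⟨Rt (t ^ k) z + w, ?_⟩
      rw [pow_succ, ← Rt_mul, map_add]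
      linear_combination (norm := module) hw
  obtain ⟨n, rfl | rfl⟩ := k.eq_nat_or_neg
  · rw [zpow_natCast]; exact hn n z
  · obtain ⟨w, hw⟩ := hn n (Rt (t ^ (-(n : ℤ))) z)
    refine ⟨-w, ?_⟩
    have h1 : Rt (t ^ n) (Rt (t ^ (-(n : ℤ))) z) = z := by
      rw [Rt_mul, zpow_neg, zpow_natCast, inv_mul_cancel, Rt_one]
    rw [h1] at hw
    rw [map_neg]
    linear_combination (norm := module) -hw

lemma ker_Mk' (t : G) (a : MonoidAlgebra ℤ G) :
    ∃ u, a - Sec (Subgroup.zpowers t) (Mk (Subgroup.zpowers t) a) = Rt t u - u := by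
  induction a using MonoidAlgebra.induction_linear with
  | zero => exact ⟨0, by simp⟩
  | add x y hx hy =>
    obtain ⟨u, hu⟩ := hx
    obtain ⟨v, hv⟩ := hy
    refine ⟨u + v, ?_⟩
    rw [map_add, map_add, map_add]
    linear_combination (norm := module) hu + hv
  | single g r =>
    rw [Mk_single, Sec_single]
    obtain ⟨k, hk⟩ : ∃ k : ℤ, Quotient.out (QuotientGroup.mk g : G ⧸ Subgroup.zpowers t) =
        g * t ^ k := by
      have h2 : (QuotientGroup.mk g : G ⧸ Subgroup.zpowers t) =
          QuotientGroup.mk (Quotient.out (QuotientGroup.mk g : G ⧸ Subgroup.zpowers t)) :=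
        (Quotient.out_eq _).symm
      rw [QuotientGroup.eq] at h2
      obtain ⟨k, hk⟩ := h2
      refine ⟨k, ?_⟩
      change t ^ k = _ at hk
      rw [hk]
      group
    have h3 : MonoidAlgebra.single (Quotient.out (QuotientGroup.mk g : G ⧸ Subgroup.zpowers t)) r =
        Rt (t ^ k) (MonoidAlgebra.single g r : MonoidAlgebra ℤ G) := by
      rw [Rt_apply, MonoidAlgebra.single_mul_single, mul_one, hk]
    rw [h3]
    obtain ⟨w, hw⟩ := Rt_pow t k (MonoidAlgebra.single g r : MonoidAlgebra ℤ G)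
    refine ⟨-w, ?_⟩
    rw [map_neg]
    linear_combination (norm := module) -hw

lemma ker_Mk (t : G) (a : MonoidAlgebra ℤ G) (h : Mk (Subgroup.zpowers t) a = 0) :
    ∃ u, a = Rt t u - u := by
  obtain ⟨u, hu⟩ := ker_Mk' t a
  rw [h, map_zero, sub_zero] at hu
  exact ⟨u, hu⟩

lemma Mk_Rt (t : G) (a : MonoidAlgebra ℤ G) :
    Mk (Subgroup.zpowers t) (Rt t a) = Mk (Subgroup.zpowers t) a := by
  induction a using MonoidAlgebra.induction_linear with
  | zero => simp
  | add x y hx hy => rw [map_add, map_add, map_add, hx, hy]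
  | single g r =>
    rw [Rt_apply, MonoidAlgebra.single_mul_single, mul_one, Mk_single, Mk_single]
    congr 1
    rw [QuotientGroup.eq]
    refine ⟨-1, ?_⟩
    change t ^ (-1 : ℤ) = _
    rw [zpow_neg_one]
    group

lemma eq_zero_of_Rt (t : G) (ht : ¬ IsOfFinOrder t) (a : MonoidAlgebra ℤ G) (h : Rt t a = a) :
    a = 0 := by
  have hc : ∀ g, a.coeff (g * t) = a.coeff g := by
    intro g
    conv_lhs => rw [← h, Rt_apply]
    rw [MonoidAlgebra.coeff_mul_single_apply]
    simp
  have h1 : ∀ (k : ℕ) g, a.coeff (g * t ^ k) = a.coeff g := by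
    intro k
    induction k with
    | zero => intro g; rw [pow_zero, mul_one]
    | succ k ih =>
      intro g
      rw [pow_succ, ← mul_assoc, hc, ih]
  have h0 : a.coeff = 0 := by
    by_contra hne
    obtain ⟨g, hg⟩ := Finsupp.ne_iff.1 hne
    rw [Finsupp.zero_apply] at hg
    have h3 : Set.Infinite (a.coeff.support : Set G) := by
      refine Set.infinite_of_injective_forall_mem (f := fun k : ℕ => g * t ^ k) ?_ fun k => ?_
      · intro x y hxy
        exact (injective_pow_iff_not_isOfFinOrder.2 ht) (mul_left_cancel hxy)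
      · rw [Finset.mem_coe, Finsupp.mem_support_iff, h1]
        exact hg
    exact h3 a.coeff.support.finite_toSet
  ext g
  rw [h0]
  rfl

/-- vectors: the image in the permutation module -/
lemma cobdZ_Mk (X : FinRes G) (C : Subgroup G) (i : ℕ) (y : Fin (X.n i) → MonoidAlgebra ℤ G) :
    cobdZ X (G ⧸ C) i (fun j => Mk C (y j)) = fun k => Mk C ((X.d i *ᵥ y) k) := by
  funext k
  change ∑ j, ringZ G (G ⧸ C) (X.d i k j) (Mk C (y j)) = Mk C (∑ j, X.d i k j * y j)
  rw [map_sum]
  exact Finset.sum_congr rfl fun j _ => ringZ_Mk C _ _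

lemma mulVec_Rt (X : FinRes G) (t : G) (i : ℕ) (y : Fin (X.n i) → MonoidAlgebra ℤ G) :
    X.d i *ᵥ (fun j => Rt t (y j)) = fun k => Rt t ((X.d i *ᵥ y) k) := by
  funext k
  change ∑ j, X.d i k j * (y j * _) = (∑ j, X.d i k j * y j) * _
  rw [Finset.sum_mul]
  exact Finset.sum_congr rfl fun j _ => (mul_assoc _ _ _).symm

lemma mulVec_sub' {a b : ℕ} (M : Matrix (Fin a) (Fin b) (MonoidAlgebra ℤ G))
    (x y : Fin b → MonoidAlgebra ℤ G) : M *ᵥ (fun j => x j - y j) = fun k => (M *ᵥ x) k - (M *ᵥ y) k :=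
  Matrix.mulVec_sub M x y

theorem pdc (htf : S_TF) : S_PDC := by
  intro G _ hG X w ε hO hs
  obtain ⟨g, hg⟩ := exists_ne (1 : G)
  have hinf : ¬ IsOfFinOrder (g * g) := by
    intro h
    apply hg
    apply htf G X
    rw [← pow_two] at h
    exact (isOfFinOrder_pow.1 h).resolve_right two_ne_zero
  set t := g * g with ht
  by_cases hfin : Finite (G ⧸ Subgroup.zpowers t)
  · obtain ⟨i, hi⟩ := Pool.Agent.Q146.FT.amen G t hfin X
    exact not_nontrivial_iff_subsingleton.2 (hs i) hi
  rw [not_finite_iff_infinite] at hfin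
  obtain ⟨z, hz⟩ := hO.surj 1
  have hwt : ((w t : ℤˣ) : ℤ) = 1 := by
    rw [ht, map_mul]
    exact congrArg Units.val (Int.units_mul_self (w g))
  obtain ⟨y, hy⟩ := (hO.ker (fun j => Rt t (z j) - z j)).1 (by
    have h1 : (fun j => Rt t (z j) - z j) =
        (fun j => z j * MonoidAlgebra.single t 1) - z := rfl
    rw [h1, map_sub, hO.smul, hwt, one_mul, sub_self])
  set C := Subgroup.zpowers t with hC
  obtain ⟨x, hx⟩ := exact_coset X t hfin hs 2 le_rfl (fun j => Mk C (y j)) (by
    rw [cobdZ_Mk, hy]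
    funext k
    change Mk C (Rt t (z k) - z k) = 0
    rw [map_sub, hC, Mk_Rt, sub_self])
  have hx' : ∀ k, Mk C ((X.d 1 *ᵥ fun j => Sec C (x j)) k) = Mk C (y k) := by
    intro k
    have h1 := congrFun (cobdZ_Mk X C 1 fun j => Sec C (x j)) k
    rw [← h1]
    have h2 : (fun j => Mk C (Sec C (x j))) = x := funext fun j => Mk_Sec C (x j)
    rw [h2]
    exact congrFun hx k
  choose u hu using fun k => ker_Mk t (y k - (X.d 1 *ᵥ fun j => Sec C (x j)) k) (by
    rw [map_sub, ← hC, hx', sub_self])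
  have h1 : (fun k => y k - (X.d 1 *ᵥ fun j => Sec C (x j)) k) = fun k => Rt t (u k) - u k :=
    funext hu
  have h2 := congrArg (fun v => X.d 2 *ᵥ v) h1
  change X.d 2 *ᵥ _ = X.d 2 *ᵥ _ at h2
  rw [mulVec_sub', mulVec_sub', mulVec_Rt, hy, Matrix.mulVec_mulVec,
    Pool.Agent.H919R4.ZS.d_mul_d, Matrix.zero_mulVec] at h2
  have h3 : ∀ k, z k - (X.d 2 *ᵥ u) k = 0 := by
    intro k
    apply eq_zero_of_Rt t hinf
    have h4 := congrFun h2 k
    change Rt t (z k) - z k - 0 = Rt t ((X.d 2 *ᵥ u) k) - (X.d 2 *ᵥ u) k at h4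
    rw [map_sub]
    linear_combination (norm := module) h4
  have h5 : ε z = 0 := (hO.ker z).2 ⟨u, by
    funext k
    exact (sub_eq_zero.1 (h3 k)).symm⟩
  rw [hz] at h5
  exact one_ne_zero h5

end

end Pool.Agent.Q169.PT
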