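import Pool.Agent.Q169.PT.Stm

set_option autoImplicit false
set_option linter.unusedSectionVars false

namespace Pool.Agent.Q169.PT.TFr

open scoped Matrix
open Pool.Agent.H919R4.ZS (FinRes augm eps augm_single eps_smul eps_sub exists_lift)

noncomputable section

variable {G : Type} [Group G] (h : G) (p : ℕ)

/-- `h - 1` -/
def S : MonoidAlgebra ℤ G := MonoidAlgebra.single h 1 - 1

/-- the sum of the powers of `h` -/
def N : MonoidAlgebra ℤ G := ∑ i ∈ Finset.range p, MonoidAlgebra.single (h ^ i) 1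

lemma S_mul (x : MonoidAlgebra ℤ G) (k : G) : (S h * x).coeff k = x.coeff (h⁻¹ * k) - x.coeff k := by
  rw [S, sub_mul, one_mul, MonoidAlgebra.coeff_sub, Finsupp.sub_apply,
    MonoidAlgebra.coeff_single_mul_apply, one_mul]

lemma N_mul (x : MonoidAlgebra ℤ G) (k : G) :
    (N h p * x).coeff k = ∑ i ∈ Finset.range p, x.coeff ((h ^ i)⁻¹ * k) := by
  rw [N, Finset.sum_mul, MonoidAlgebra.coeff_sum, Finsupp.finsetSum_apply]
  refine Finset.sum_congr rfl fun i _ => ?_
  rw [MonoidAlgebra.coeff_single_mul_apply, one_mul]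

lemma geom_aux (n : ℕ) : (∑ i ∈ Finset.range n, (MonoidAlgebra.single (h ^ i) 1 : MonoidAlgebra ℤ G)) *
    S h = MonoidAlgebra.single (h ^ n) 1 - 1 := by
  induction n with
  | zero => simp [MonoidAlgebra.one_def]
  | succ n ih =>
    rw [Finset.sum_range_succ, add_mul, ih, S, mul_sub, MonoidAlgebra.single_mul_single, mul_one,
      mul_one, ← pow_succ]
    abel

lemma geom_aux' (n : ℕ) : S h * (∑ i ∈ Finset.range n, (MonoidAlgebra.single (h ^ i) 1 : MonoidAlgebra ℤ G))
     = MonoidAlgebra.single (h ^ n) 1 - 1 := by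
  induction n with
  | zero => simp [MonoidAlgebra.one_def]
  | succ n ih =>
    rw [Finset.sum_range_succ, mul_add, ih, S, sub_mul, MonoidAlgebra.single_mul_single, one_mul,
      one_mul, ← pow_succ']
    abel

variable {h p} (hp : orderOf h = p) (hp0 : 1 < p)

include hp in
lemma NS : N h p * S h = 0 := by
  rw [N, geom_aux, ← hp, pow_orderOf_eq_one, MonoidAlgebra.one_def, sub_self]

include hp in
lemma SN : S h * N h p = 0 := by
  rw [N, geom_aux', ← hp, pow_orderOf_eq_one, MonoidAlgebra.one_def, sub_self]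

/-- representatives of the right cosets -/
def rr (h k : G) : G :=
  Quotient.out (Quotient.mk (QuotientGroup.rightRel (Subgroup.zpowers h)) k)

lemma rr_mul (i : ℕ) (k : G) : rr h (h ^ i * k) = rr h k := by
  unfold rr
  congr 1
  apply Quotient.sound
  change (QuotientGroup.rightRel (Subgroup.zpowers h)) _ _
  rw [QuotientGroup.rightRel_apply]
  refine ⟨-i, ?_⟩
  change h ^ (-(i : ℤ)) = _
  rw [zpow_neg, zpow_natCast]
  group

include hp hp0 in
lemma exists_rr (k : G) : ∃ i < p, k = h ^ i * rr h k := by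
  have h1 : (QuotientGroup.rightRel (Subgroup.zpowers h)) (rr h k) k :=
    Quotient.exact (Quotient.out_eq _)
  rw [QuotientGroup.rightRel_apply] at h1
  obtain ⟨j, hj⟩ := h1
  change h ^ j = _ at hj
  have hpz : (0 : ℤ) < p := by exact_mod_cast (by omega : 0 < p)
  refine ⟨(j % p).toNat, ?_, ?_⟩
  · have := Int.emod_lt_of_pos j hpz
    have h2 := Int.emod_nonneg j hpz.ne'
    omega
  · have h2 := Int.emod_nonneg j hpz.ne'
    have h3 : h ^ ((j % p).toNat) = h ^ j := by
      rw [← zpow_natCast, Int.toNat_of_nonneg h2, ← hp, zpow_mod_orderOf]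
    rw [h3, hj]
    group

lemma rr_rr (k : G) : rr h (rr h k) = rr h k := by
  unfold rr
  rw [Quotient.out_eq]

include hp in
lemma pow_inj' {i j : ℕ} (hi : i < p) (hj : j < p) (e : h ^ i = h ^ j) : i = j := by
  apply pow_injOn_Iio_orderOf (x := h) _ _ e
  · rw [hp]; exact hi
  · rw [hp]; exact hj

include hp hp0 in
/-- the sum over a coset of an element supported on the representatives -/
lemma N_mul_supp (x : MonoidAlgebra ℤ G) (hx : ∀ k, x.coeff k ≠ 0 → rr h k = k) (k : G) :
    (N h p * x).coeff k = x.coeff (rr h k) := by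
  obtain ⟨i0, hi0, hk⟩ := exists_rr hp hp0 k
  rw [N_mul, Finset.sum_eq_single i0]
  · congr 1
    conv_lhs => rw [hk]
    group
  · intro i hi hne
    by_contra h0
    have h1 := hx _ h0
    have h2 : rr h ((h ^ i)⁻¹ * k) = rr h k := by
      conv_rhs => rw [← mul_inv_cancel_left (h ^ i) k]
      rw [rr_mul]
    rw [h2] at h1
    apply hne
    apply pow_inj' hp (Finset.mem_range.1 hi) hi0
    have h3 : h ^ i * rr h k = k := by rw [h1]; group
    rw [← mul_left_inj (rr h k), h3]
    exact hk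
  · intro h
    exact absurd (Finset.mem_range.2 hi0) h

include hp hp0 in
theorem F1 (x : MonoidAlgebra ℤ G) (hx : S h * x = 0) : ∃ y, x = N h p * y := by
  classical
  have h1 : ∀ k, x.coeff (h⁻¹ * k) = x.coeff k := by
    intro k
    have := congrArg (fun a : MonoidAlgebra ℤ G => a.coeff k) hx
    change (S h * x).coeff k = 0 at this
    rw [S_mul, sub_eq_zero] at this
    exact this
  have h2 : ∀ (i : ℕ) k, x.coeff (h ^ i * k) = x.coeff k := by
    intro i
    induction i with
    | zero => intro k; rw [pow_zero, one_mul]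
    | succ i ih =>
      intro k
      rw [pow_succ', mul_assoc, ← h1 (h * (h ^ i * k)), inv_mul_cancel_left, ih]
  refine ⟨MonoidAlgebra.ofCoeff (x.coeff.filter fun k => rr h k = k), ?_⟩
  have h3 : ∀ k, (N h p * MonoidAlgebra.ofCoeff (x.coeff.filter fun k => rr h k = k)).coeff k =
      x.coeff k := by
    intro k
    rw [N_mul_supp hp hp0]
    · change (x.coeff.filter fun k => rr h k = k) (rr h k) = _
      rw [Finsupp.filter_apply_pos (fun k => rr h k = k) _ (rr_rr k)]
      obtain ⟨i, -, hk⟩ := exists_rr hp hp0 k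
      conv_rhs => rw [hk, h2]
    · intro k hk
      by_contra hne
      apply hk
      exact Finsupp.filter_apply_neg _ _ hne
  apply MonoidAlgebra.coeff_injective
  ext k
  rw [h3]

include hp hp0 in
theorem F2 (x : MonoidAlgebra ℤ G) (hx : N h p * x = 0) : ∃ y, x = S h * y := by
  -- reduction to the representatives
  have h1 : ∀ x : MonoidAlgebra ℤ G, ∃ x' y, x = x' + S h * y ∧ ∀ k, x'.coeff k ≠ 0 → rr h k = k := by
    intro x
    induction x using MonoidAlgebra.induction_linear with
    | zero => exact ⟨0, 0, by simp, fun k hk => absurd rfl hk⟩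
    | add a b ha hb =>
      obtain ⟨a', y, e, ha⟩ := ha
      obtain ⟨b', z, e', hb⟩ := hb
      refine ⟨a' + b', y + z, ?_, ?_⟩
      · rw [mul_add]
        conv_lhs => rw [e, e']
        abel
      · intro k hk
        by_cases h0 : a'.coeff k = 0
        · apply hb
          intro h1
          apply hk
          rw [MonoidAlgebra.coeff_add, Finsupp.add_apply, h0, h1, add_zero]
        · exact ha k h0
    | single k r =>
      obtain ⟨i, -, hk⟩ := exists_rr hp hp0 k
      refine ⟨MonoidAlgebra.single (rr h k) r,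
        (∑ j ∈ Finset.range i, MonoidAlgebra.single (h ^ j) 1) * MonoidAlgebra.single (rr h k) r,
        ?_, ?_⟩
      · rw [← mul_assoc, geom_aux', sub_mul, one_mul, MonoidAlgebra.single_mul_single, one_mul, ← hk]
        abel
      · intro k' hk'
        rw [MonoidAlgebra.coeff_single] at hk'
        have : k' = rr h k := by
          by_contra hne
          exact hk' (Finsupp.single_eq_of_ne hne)
        rw [this, rr_rr]
  obtain ⟨x', y, e, hx'⟩ := h1 x
  refine ⟨y, ?_⟩
  have h2 : x' = 0 := by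
    rw [e, mul_add, ← mul_assoc, NS hp, zero_mul, add_zero] at hx
    apply MonoidAlgebra.coeff_injective
    ext k
    by_contra hne
    have h3 := N_mul_supp hp hp0 x' hx' k
    rw [hx, hx' k hne] at h3
    exact hne h3.symm
  rw [e, h2, zero_add]

include hp hp0 in
theorem F1v {n : ℕ} (x : Fin n → MonoidAlgebra ℤ G) (hx : S h • x = 0) : ∃ y, x = N h p • y := by
  choose y hy using fun j => F1 hp hp0 (x j) (congrFun hx j)
  exact ⟨y, funext hy⟩

include hp hp0 in
theorem F2v {n : ℕ} (x : Fin n → MonoidAlgebra ℤ G) (hx : N h p • x = 0) : ∃ y, x = S h • y := by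
  choose y hy using fun j => F2 hp hp0 (x j) (congrFun hx j)
  exact ⟨y, funext hy⟩

include hp hp0 in
theorem claim (X : FinRes G) : ∀ (j i : ℕ), i + j = X.len + 1 →
    ∀ x : Fin (X.n i) → MonoidAlgebra ℤ G, (∃ z, z ᵥ* X.d i = x) →
      (S h • x = 0 → ∃ y, (∃ z, z ᵥ* X.d i = y) ∧ x = N h p • y) ∧
      (N h p • x = 0 → ∃ y, (∃ z, z ᵥ* X.d i = y) ∧ x = S h • y) := by
  intro j
  induction j with
  | zero =>
    intro i hi x hx
    have hn : X.n i = 0 := X.n_eq_zero i (by omega)
    have he : ∀ u v : Fin (X.n i) → MonoidAlgebra ℤ G, u = v := fun u v =>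
      funext fun k => (Fin.cast hn k).elim0
    exact ⟨fun _ => ⟨x, hx, he _ _⟩, fun _ => ⟨x, hx, he _ _⟩⟩
  | succ j ih =>
    rintro i hi x ⟨z, rfl⟩
    constructor
    · intro hx
      have h1 : (S h • z) ᵥ* X.d i = 0 := by rw [Matrix.smul_vecMul, hx]
      obtain ⟨y, ⟨u, hu⟩, hy⟩ := (ih (i + 1) (by omega) (S h • z) ((X.exact_succ i _).1 h1)).2 (by
        rw [smul_smul, NS hp, zero_smul])
      obtain ⟨v, hv⟩ := F1v hp hp0 (z - y) (by rw [smul_sub, hy, sub_self])
      refine ⟨v ᵥ* X.d i, ⟨v, rfl⟩, ?_⟩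
      rw [← Matrix.smul_vecMul, ← hv, Matrix.sub_vecMul, (X.exact_succ i y).2 ⟨u, hu⟩, sub_zero]
    · intro hx
      have h1 : (N h p • z) ᵥ* X.d i = 0 := by rw [Matrix.smul_vecMul, hx]
      obtain ⟨y, ⟨u, hu⟩, hy⟩ := (ih (i + 1) (by omega) (N h p • z) ((X.exact_succ i _).1 h1)).1 (by
        rw [smul_smul, SN hp, zero_smul])
      obtain ⟨v, hv⟩ := F2v hp hp0 (z - y) (by rw [smul_sub, hy, sub_self])
      refine ⟨v ᵥ* X.d i, ⟨v, rfl⟩, ?_⟩
      rw [← Matrix.smul_vecMul, ← hv, Matrix.sub_vecMul, (X.exact_succ i y).2 ⟨u, hu⟩, sub_zero]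

lemma augm_N : augm G (N h p) = p := by
  rw [N, map_sum]
  simp [augm_single]

include hp hp0 in
theorem no (X : FinRes G) : False := by
  obtain ⟨x0, hx0⟩ := X.surj
  change eps X x0 = 1 at hx0
  have h1 : eps X (S h • x0) = 0 := by
    rw [eps_smul, S, map_sub, augm_single, map_one, sub_self, zero_mul]
  obtain ⟨y, ⟨z, hz⟩, hy⟩ := (claim hp hp0 X (X.len + 1) 0 (by omega) (S h • x0)
    (exists_lift X _ h1)).2 (by rw [smul_smul, NS hp, zero_smul])
  obtain ⟨u, hu⟩ := F1v hp hp0 (x0 - y) (by rw [smul_sub, hy, sub_self])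
  have h2 : eps X (x0 - y) = p * eps X u := by rw [hu, eps_smul, augm_N]
  have h3 : eps X y = 0 := (X.exact_zero y).2 ⟨z, hz⟩
  rw [eps_sub, hx0, h3, sub_zero] at h2
  have h4 : (p : ℤ) ∣ 1 := ⟨_, h2⟩
  have h5 := Int.eq_one_of_dvd_one (by positivity) h4
  omega

end

/-- JOB TF -/
theorem tf : S_TF := by
  intro G _ X g hg
  by_contra hne
  have h1 : orderOf g ≠ 1 := by
    intro h
    exact hne (orderOf_eq_one_iff.1 h)
  have h0 : 0 < orderOf g := hg.orderOf_pos
  exact no (h := g) (p := orderOf g) rfl (by omega) X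

end Pool.Agent.Q169.PT.TFr
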