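import Pool.Agent.Q169.PT.Stm

set_option autoImplicit false
set_option linter.unusedSectionVars false

namespace Pool.Agent.Q169.PT.Ul

open Filter Topology UniformSpace

noncomputable section

/-- the ultrafilter -/
abbrev om : Filter ℕ := (hyperfilter ℕ : Filter ℕ)

/-- limits of bounded sequences of complex numbers -/
theorem exists_lim (f : ℕ → ℂ) (hf : ∃ C, ∀ n, ‖f n‖ ≤ C) : ∃ a, Tendsto f om (𝓝 a) := by
  obtain ⟨C, hC⟩ := hf
  obtain ⟨a, -, ha⟩ := (isCompact_closedBall (0 : ℂ) C).ultrafilter_le_nhds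
    ((hyperfilter ℕ).map f) (by
      change Tendsto f om (𝓟 (Metric.closedBall (0 : ℂ) C))
      exact tendsto_principal.2 (Filter.Eventually.of_forall fun n => by
        rw [mem_closedBall_zero_iff]
        exact hC n))
  exact ⟨a, ha⟩

/-- the limit -/
def lm (f : ℕ → ℂ) : ℂ := limUnder om f

theorem tendsto_lm (f : ℕ → ℂ) (hf : ∃ C, ∀ n, ‖f n‖ ≤ C) : Tendsto f om (𝓝 (lm f)) :=
  tendsto_nhds_limUnder (exists_lim f hf)

theorem lm_eq {f : ℕ → ℂ} {a : ℂ} (h : Tendsto f om (𝓝 a)) : lm f = a := h.limUnder_eq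

variable (H : Type) [NormedAddCommGroup H] [InnerProductSpace ℂ H]

/-- the bounded sequences -/
def Bd : Submodule ℂ (ℕ → H) where
  carrier := {x | ∃ C, ∀ n, ‖x n‖ ≤ C}
  zero_mem' := ⟨0, fun n => by simp⟩
  add_mem' := by
    rintro x y ⟨C, hC⟩ ⟨D, hD⟩
    exact ⟨C + D, fun n => (norm_add_le _ _).trans (add_le_add (hC n) (hD n))⟩
  smul_mem' := by
    rintro c x ⟨C, hC⟩
    refine ⟨‖c‖ * C, fun n => ?_⟩
    rw [Pi.smul_apply, norm_smul]
    exact mul_le_mul_of_nonneg_left (hC n) (norm_nonneg _)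

/-- the bounded sequences, with the semi-norm `lim ‖x n‖` -/
def UM : Type := Bd H

instance : AddCommGroup (UM H) := inferInstanceAs (AddCommGroup (Bd H))

instance : Module ℂ (UM H) := inferInstanceAs (Module ℂ (Bd H))

variable {H}

/-- the sequence -/
def UM.fn (x : UM H) : ℕ → H := Subtype.val (p := fun x => x ∈ Bd H) x

theorem UM.bd (x : UM H) : ∃ C, ∀ n, ‖x.fn n‖ ≤ C := Subtype.property (p := fun x => x ∈ Bd H) x

theorem UM.add_fn (x y : UM H) (n : ℕ) : (x + y).fn n = x.fn n + y.fn n := rfl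

theorem UM.smul_fn (c : ℂ) (x : UM H) (n : ℕ) : (c • x).fn n = c • x.fn n := rfl

theorem bd_inner (x y : UM H) : ∃ C, ∀ n, ‖inner ℂ (x.fn n) (y.fn n)‖ ≤ C := by
  obtain ⟨C, hC⟩ := x.bd
  obtain ⟨D, hD⟩ := y.bd
  refine ⟨C * D, fun n => (norm_inner_le_norm _ _).trans ?_⟩
  exact mul_le_mul (hC n) (hD n) (norm_nonneg _) ((norm_nonneg _).trans (hC n))

/-- the element given by a bounded sequence -/
def UM.mk (x : ℕ → H) (h : ∃ C, ∀ n, ‖x n‖ ≤ C) : UM H := (⟨x, h⟩ : Bd H)

theorem UM.mk_fn (x : ℕ → H) (h : ∃ C, ∀ n, ‖x n‖ ≤ C) : (UM.mk x h).fn = x := rfl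

theorem UM.ext' (x y : UM H) (h : ∀ n, x.fn n = y.fn n) : x = y := Subtype.ext (funext h)

/-- the semi-inner product -/
@[instance_reducible]
def core : PreInnerProductSpace.Core ℂ (UM H) where
  inner x y := lm fun n => inner ℂ (x.fn n) (y.fn n)
  conj_inner_symm x y := by
    symm
    apply lm_eq
    have h := (Complex.continuous_conj.tendsto _).comp (tendsto_lm _ (bd_inner y x))
    refine h.congr fun n => ?_
    exact inner_conj_symm _ _
  re_inner_nonneg x := by
    have h := (Complex.continuous_re.tendsto _).comp (tendsto_lm _ (bd_inner x x))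
    refine ge_of_tendsto h (Filter.Eventually.of_forall fun n => ?_)
    exact inner_self_nonneg (𝕜 := ℂ)
  add_left x y z := by
    apply lm_eq
    refine ((tendsto_lm _ (bd_inner x z)).add (tendsto_lm _ (bd_inner y z))).congr fun n => ?_
    rw [UM.add_fn, inner_add_left]
  smul_left x y r := by
    apply lm_eq
    refine ((tendsto_lm _ (bd_inner x y)).const_mul ((starRingEnd ℂ) r)).congr fun n => ?_
    rw [UM.smul_fn, inner_smul_left]

instance : SeminormedAddCommGroup (UM H) :=
  @InnerProductSpace.Core.toSeminormedAddCommGroup ℂ (UM H) _ _ _ core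

instance : InnerProductSpace ℂ (UM H) := InnerProductSpace.ofCore core

theorem inner_def (x y : UM H) : inner ℂ x y = lm fun n => inner ℂ (x.fn n) (y.fn n) := rfl

theorem tendsto_norm (x : UM H) : Tendsto (fun n => ‖x.fn n‖) om (𝓝 ‖x‖) := by
  have h1 : Tendsto (fun n => ‖x.fn n‖ ^ 2) om (𝓝 (‖x‖ ^ 2)) := by
    have h := (Complex.continuous_re.tendsto _).comp (tendsto_lm _ (bd_inner x x))
    rw [← inner_def, ← RCLike.re_eq_complex_re, inner_self_eq_norm_sq] at h
    refine h.congr fun n => ?_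
    exact inner_self_eq_norm_sq (𝕜 := ℂ) _
  have h2 := h1.sqrt
  simpa [Real.sqrt_sq] using h2

section rep

variable {G : Type} [Group G] (π : Rep G H)

/-- the action on bounded sequences -/
def tr (g : G) : UM H →ₗ[ℂ] UM H where
  toFun x := UM.mk (fun n => π.hom g (x.fn n)) (by
    obtain ⟨C, hC⟩ := x.bd
    exact ⟨C, fun n => by rw [π.norm]; exact hC n⟩)
  map_add' x y := by
    refine UM.ext' _ _ fun n => ?_
    change π.hom g (x.fn n + y.fn n) = π.hom g (x.fn n) + π.hom g (y.fn n)
    rw [map_add]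
  map_smul' c x := by
    refine UM.ext' _ _ fun n => ?_
    change π.hom g (c • x.fn n) = c • π.hom g (x.fn n)
    rw [map_smul]

theorem tr_fn (g : G) (x : UM H) (n : ℕ) : (tr π g x).fn n = π.hom g (x.fn n) := rfl

theorem norm_tr (g : G) (x : UM H) : ‖tr π g x‖ = ‖x‖ := by
  refine tendsto_nhds_unique (tendsto_norm (tr π g x)) ?_
  refine (tendsto_norm x).congr fun n => ?_
  rw [tr_fn, π.norm]

/-- the inclusion in the completion -/
def inc : UM H →ₗ[ℂ] Completion (UM H) := (Completion.toComplL (𝕜 := ℂ) (E := UM H)).toLinearMap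

theorem inc_apply (x : UM H) : inc x = (x : Completion (UM H)) := rfl

theorem norm_inc (x : UM H) : ‖inc x‖ = ‖x‖ := Completion.norm_coe x

theorem dense_inc : DenseRange (inc (H := H)) := Completion.denseRange_coe

/-- the extension to the completion -/
def ext (g : G) : Completion (UM H) →L[ℂ] Completion (UM H) :=
  (inc ∘ₗ tr π g).extendOfNorm inc

theorem ext_inc (g : G) (x : UM H) : ext π g (inc x) = inc (tr π g x) := by
  unfold ext
  rw [LinearMap.extendOfNorm_eq dense_inc]
  · rfl
  · exact ⟨1, fun x => by rw [LinearMap.comp_apply, norm_inc, norm_inc, norm_tr, one_mul]⟩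

/-- the representation on the completion -/
def rp : Rep G (Completion (UM H)) where
  hom :=
    { toFun := ext π
      map_one' := by
        refine ContinuousLinearMap.ext fun v => ?_
        refine dense_inc.induction_on v (isClosed_eq (by fun_prop) (by fun_prop)) fun x => ?_
        rw [ext_inc]
        change inc _ = inc x
        refine congrArg inc (UM.ext' _ _ fun n => ?_)
        change π.hom 1 (x.fn n) = x.fn n
        rw [map_one]
        rfl
      map_mul' := fun g h => by
        refine ContinuousLinearMap.ext fun v => ?_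
        refine dense_inc.induction_on v (isClosed_eq (by fun_prop) (by fun_prop)) fun x => ?_
        rw [ext_inc]
        change _ = ext π g (ext π h (inc x))
        rw [ext_inc, ext_inc]
        refine congrArg inc (UM.ext' _ _ fun n => ?_)
        change π.hom (g * h) (x.fn n) = π.hom g (π.hom h (x.fn n))
        rw [map_mul]
        rfl }
  norm := fun g v => by
    change ‖ext π g v‖ = ‖v‖
    refine dense_inc.induction_on v (isClosed_eq (by fun_prop) (by fun_prop)) fun x => ?_
    rw [ext_inc, norm_inc, norm_inc, norm_tr]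

end rep

open scoped Classical in
/-- the map to the ultrapower -/
def q (x : ℕ → H) : Completion (UM H) :=
  if h : ∃ C, ∀ n, ‖x n‖ ≤ C then inc (UM.mk x h) else 0

theorem q_eq (x : ℕ → H) (h : ∃ C, ∀ n, ‖x n‖ ≤ C) : q x = inc (UM.mk x h) := dif_pos h

/-- JOB ULTRA -/
theorem ultra : S_ULTRA := by
  intro G H _ _ _ π
  refine ⟨Completion (UM H), inferInstance, inferInstance, inferInstance, rp π, q, ?_, ?_, ?_, ?_,
    ?_⟩
  · intro x y hx hy
    have hxy : ∃ C, ∀ n, ‖(x + y) n‖ ≤ C := (Bd H).add_mem hx hy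
    rw [q_eq x hx, q_eq y hy, q_eq _ hxy, ← map_add]
    rfl
  · intro c x hx
    have hcx : ∃ C, ∀ n, ‖(c • x) n‖ ≤ C := (Bd H).smul_mem c hx
    rw [q_eq x hx, q_eq _ hcx, ← map_smul]
    rfl
  · intro g x hx
    have hgx : ∃ C, ∀ n, ‖π.hom g (x n)‖ ≤ C := by
      obtain ⟨C, hC⟩ := hx
      exact ⟨C, fun n => by rw [π.norm]; exact hC n⟩
    rw [q_eq x hx, q_eq _ hgx]
    exact ext_inc π g _
  · intro x hx
    rw [q_eq x hx, norm_inc]
    exact tendsto_norm (UM.mk x hx)
  · intro v ε hε
    obtain ⟨x, hx⟩ := dense_inc.exists_dist_lt v hε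
    refine ⟨x.fn, x.bd, ?_⟩
    rw [q_eq _ x.bd, ← dist_eq_norm]
    exact hx

end

end Pool.Agent.Q169.PT.Ul
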