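import Pool.Agent.Q169.PT.Final
import Pool.Agent.Q169.PT.Deg
import Pool.Agent.Q169.PT.Ultra
import Pool.Agent.Q169.PT.Closed
import Pool.Agent.Q169.PT.Dual
import Pool.Agent.Q169.PT.TF
import Pool.Agent.Q169.PT.Pdc
import Pool.Agent.Q154.PT.Twist
import Pool.Agent.Q154.PT.Hil
import Pool.Agent.Q154.PT.Inf
import Pool.Agent.Q154.PT.Ori

set_option autoImplicit false

namespace Pool.Agent.Q169.PT

open Pool.Agent.H919R4.ZS (FinRes toRed L2)

theorem all {G : Type} [Group G] (X : FinRes G) (hlen : X.len ≤ 3)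
    (hc : ∀ i ≤ 2, Subsingleton (X.cohomology i))
    (he : Nonempty (X.cohomology 3 ≃+ ℤ)) :
    ∃ (H : Type) (_ : NormedAddCommGroup H) (_ : InnerProductSpace ℂ H) (_ : CompleteSpace H)
      (π : Rep G H), Tempered π ∧ ¬ Van1 π :=
  final' fhone inv (Cl.closed Ul.ultra fhone) Pool.Agent.Q154.PT.Twist.twist
    Pool.Agent.Q154.PT.Hil.hil Pool.Agent.Q154.PT.Inf.inf Pool.Agent.Q154.PT.Ori.ori Du.dual
    (pdc TFr.tf) X hlen hc he

end Pool.Agent.Q169.PT
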