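import Pool.Agent.Q169.PT.Nam

/-!
# Comparison of the two sets of definitions
-/

set_option autoImplicit false

namespace Pool.Agent.Q169.PT.Br

open Filter Topology
open scoped ENNReal
open Pool.Agent.H919R4.ZS (L2 lregL)
open Pool.Agent.Q169.PT.Pub (URep IsCocycle nsq conv WeaklyRegular PropertyT)

noncomputable section

lemma two_pos : 0 < (2 : ℝ≥0∞).toReal := by norm_num

section emb

variable {G : Type}

/-- finitely supported functions as elements of `ℓ²(G)` -/
def E [DecidableEq G] : (G →₀ ℂ) →ₗ[ℂ] L2 G :=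
  Finsupp.linearCombination ℂ fun g => (lp.single 2 g (1 : ℂ) : lp (fun _ : G => ℂ) 2)

variable [DecidableEq G]

lemma E_single (g : G) (a : ℂ) :
    E (Finsupp.single g a) = (lp.single 2 g a : lp (fun _ : G => ℂ) 2) := by
  unfold E
  rw [Finsupp.linearCombination_single, ← lp.single_smul, smul_eq_mul, mul_one]

lemma E_apply (f : G →₀ ℂ) (x : G) : (E f : lp (fun _ : G => ℂ) 2) x = f x := by
  induction f using Finsupp.induction_linear with
  | zero => rw [map_zero]; rfl
  | add f g hf hg =>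
    rw [map_add]
    change (E f : lp (fun _ : G => ℂ) 2) x + (E g : lp (fun _ : G => ℂ) 2) x = f x + g x
    rw [hf, hg]
  | single g a =>
    rw [E_single, lp.single_apply, Finsupp.single_apply, Pi.single_apply]
    simp only [eq_comm]

lemma norm_E (f : G →₀ ℂ) : ‖E f‖ ^ 2 = nsq f := by
  have h1 : E f = ∑ g ∈ f.support, (lp.single 2 g (f g) : lp (fun _ : G => ℂ) 2) := by
    conv_lhs => rw [← Finsupp.sum_single f]
    unfold Finsupp.sum
    rw [map_sum]
    exact Finset.sum_congr rfl fun g _ => E_single g _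
  have h2 := lp.norm_sum_single (p := 2) two_pos (fun g => f g) f.support
  rw [← h1] at h2
  have h3 : (2 : ℝ≥0∞).toReal = 2 := by norm_num
  rw [h3] at h2
  unfold nsq Finsupp.sum
  simpa only [Real.rpow_two] using h2

/-- density -/
lemma dense (f : L2 G) : Tendsto (fun s : Finset G => E (∑ g ∈ s, Finsupp.single g (f g)))
    atTop (𝓝 f) := by
  have h : HasSum (fun g : G => (lp.single 2 g (f g) : lp (fun _ : G => ℂ) 2)) f :=
    lp.hasSum_single (by norm_num) f
  refine h.congr fun s => ?_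
  rw [map_sum]
  exact Finset.sum_congr rfl fun g _ => (E_single g _).symm

end emb

variable {G : Type} [Group G]

lemma hom_E [DecidableEq G] (g : G) (f : G →₀ ℂ) (x : G) :
    ((reg G).hom g (E f) : lp (fun _ : G => ℂ) 2) x = f (g⁻¹ * x) := E_apply f _

lemma hom_single [DecidableEq G] (g h : G) (a : ℂ) :
    (reg G).hom g (E (Finsupp.single h a)) = E (Finsupp.single (g * h) a) := by
  refine Subtype.ext (funext fun x => ?_)
  rw [hom_E, E_apply, Finsupp.single_apply, Finsupp.single_apply]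
  simp only [eq_inv_mul_iff_mul_eq]

lemma reg_sum [DecidableEq G] (c f : G →₀ ℂ) : (reg G).sum c (E f) = E (conv c f) := by
  unfold Rep.sum conv Finsupp.sum
  rw [map_sum]
  refine Finset.sum_congr rfl fun g _ => ?_
  rw [map_sum]
  have h1 : E f = ∑ h ∈ f.support, E (Finsupp.single h (f h)) := by
    conv_lhs => rw [← Finsupp.sum_single f]
    unfold Finsupp.sum
    rw [map_sum]
  beta_reduce
  rw [h1, map_sum, Finset.smul_sum]
  refine Finset.sum_congr rfl fun h _ => ?_
  rw [hom_single, ← map_smul, Finsupp.smul_single, smul_eq_mul]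

/-- the operator norm is determined by finitely supported functions -/
theorem bound (c : G →₀ ℂ) (K : ℝ) (hK : 0 ≤ K)
    (h : ∀ f : G →₀ ℂ, nsq (conv c f) ≤ K ^ 2 * nsq f) (f : L2 G) :
    ‖(reg G).sum c f‖ ≤ K * ‖f‖ := by
  classical
  have h1 : ∀ f : G →₀ ℂ, ‖(reg G).sum c (E f)‖ ≤ K * ‖E f‖ := by
    intro f
    rw [reg_sum]
    refine abs_le_of_sq_le_sq' ?_ (by positivity) |>.2
    rw [mul_pow, norm_E, norm_E]
    exact h f
  have hcont : Continuous fun f : L2 G => (reg G).sum c f := by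
    unfold Rep.sum Finsupp.sum
    refine continuous_finsetSum _ fun g _ => ?_
    beta_reduce
    exact ((reg G).hom g).continuous.const_smul (c g)
  have h2 := (hcont.norm.tendsto f).comp (dense f)
  have h3 := ((continuous_const.mul continuous_norm).tendsto (x := f) (f := fun f : L2 G => K * ‖f‖)).comp
    (dense f)
  exact le_of_tendsto_of_tendsto' h2 h3 fun s => h1 _

/-- the new form of a unitary representation -/
def toU {H : Type} [NormedAddCommGroup H] [InnerProductSpace ℂ H] (π : Rep G H) : URep G H where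
  act g v := π.hom g v
  one_act v := by rw [map_one]; rfl
  mul_act g h v := by rw [map_mul]; rfl
  add_act g v w := map_add _ _ _
  smul_act g c v := map_smul _ _ _
  norm_act := π.norm

theorem tempered {H : Type} [NormedAddCommGroup H] [InnerProductSpace ℂ H] (π : Rep G H)
    (hπ : Tempered π) : WeaklyRegular (toU π) :=
  fun c K hK h v => hπ c K (bound c K hK h) v

theorem kaz (h : PropertyT G) : KazhdanT G := by
  obtain ⟨S, ε, hε, h⟩ := h
  refine ⟨S, ε, hε, fun H _ _ _ π v hv hs => ?_⟩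
  obtain ⟨u, hu, hg⟩ := h H (toU π) v hv hs
  exact ⟨u, hu, fun g => hg g trivial⟩

theorem rel (N : Subgroup G) (h : Pub.RelativeT G N) : RelativeT G N := by
  obtain ⟨S, ε, hε, h⟩ := h
  exact ⟨S, ε, hε, fun H _ _ _ π v hv hs => h H (toU π) v hv hs⟩

/-- **Namioka**: an amenable group in the sense of almost invariant vectors satisfies the condition
of Foelner -/
theorem folner {N : Type} [Group N] (h : Amen N) : Pub.Amenable N := by
  classical
  intro S ε hε
  -- the tolerance
  set m : ℝ := (S.card : ℝ) with hm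
  have hm0 : 0 ≤ m := Nat.cast_nonneg _
  set δ : ℝ := min (1 / 2) (ε / (100 * (m + 1))) with hδ
  have hδ0 : 0 < δ := by positivity
  have hδ1 : δ ≤ 1 / 2 := min_le_left _ _
  have hδ2 : δ * (100 * (m + 1)) ≤ ε := by
    rw [← le_div_iff₀ (by positivity)]
    exact min_le_right _ _
  obtain ⟨f, hf1, hf⟩ := h S δ hδ0
  obtain ⟨s0, hs0⟩ := ((dense f).eventually (Metric.ball_mem_nhds f hδ0)).exists
  set φ : N →₀ ℂ := ∑ g ∈ s0, Finsupp.single g (f g) with hφ
  have hd : ‖E φ - f‖ ≤ δ := by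
    rw [← dist_eq_norm]
    exact hs0.le
  have hn1 : 1 / 2 ≤ ‖E φ‖ := by
    have := norm_sub_norm_le f (E φ)
    rw [norm_sub_rev, hf1] at this
    linarith
  have hn2 : ‖E φ‖ ≤ 3 / 2 := by
    have := norm_sub_norm_le (E φ) f
    rw [hf1] at this
    linarith
  have hmove : ∀ s ∈ S, ‖(reg N).hom s (E φ) - E φ‖ ≤ 3 * δ := by
    intro s hs
    have e : (reg N).hom s (E φ) - E φ =
        ((reg N).hom s (E φ - f)) + ((reg N).hom s f - f) - (E φ - f) := by
      rw [map_sub]
      abel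
    rw [e]
    refine (norm_sub_le _ _).trans ?_
    have h1 := norm_add_le ((reg N).hom s (E φ - f)) ((reg N).hom s f - f)
    rw [(reg N).norm] at h1
    have h2 := hf s hs
    linarith
  -- the function `u`
  have hone : ∀ s ∈ S, ∑ x ∈ φ.support, max (‖φ x‖ ^ 2 - ‖φ (s * x)‖ ^ 2) 0 ≤
      (3 * δ) * (2 * ‖E φ‖) := by
    intro s hs
    have h1 : ∀ x, max (‖φ x‖ ^ 2 - ‖φ (s * x)‖ ^ 2) 0 ≤
        ‖φ (s * x) - φ x‖ * (‖φ x‖ + ‖φ (s * x)‖) := by
      intro x
      have h2 : |‖φ x‖ - ‖φ (s * x)‖| ≤ ‖φ (s * x) - φ x‖ := by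
        rw [norm_sub_rev]
        exact abs_norm_sub_norm_le _ _
      refine max_le ?_ (by positivity)
      have h3 := le_abs_self (‖φ x‖ - ‖φ (s * x)‖)
      have h4 : ‖φ x‖ ^ 2 - ‖φ (s * x)‖ ^ 2 =
        (‖φ x‖ - ‖φ (s * x)‖) * (‖φ x‖ + ‖φ (s * x)‖) := by ring
      rw [h4]
      exact mul_le_mul_of_nonneg_right (h3.trans h2) (by positivity)
    refine (Finset.sum_le_sum fun x _ => h1 x).trans ?_
    refine (Real.sum_mul_le_sqrt_mul_sqrt _ _ _).trans ?_
    -- the two norms
    have hgen : ∀ ψ : L2 N, Real.sqrt (∑ x ∈ φ.support, ‖ψ x‖ ^ 2) ≤ ‖ψ‖ := by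
      intro ψ
      have h5 := lp.sum_rpow_le_norm_rpow (p := 2) two_pos ψ φ.support
      have h3 : (2 : ℝ≥0∞).toReal = 2 := by norm_num
      rw [h3] at h5
      simp only [Real.rpow_two] at h5
      rw [Real.sqrt_le_left (norm_nonneg _)]
      exact h5
    have hA : Real.sqrt (∑ x ∈ φ.support, ‖φ (s * x) - φ x‖ ^ 2) ≤ 3 * δ := by
      have h6 := hgen ((reg N).hom s⁻¹ (E φ) - E φ)
      have h7 : ‖(reg N).hom s⁻¹ (E φ) - E φ‖ = ‖(reg N).hom s (E φ) - E φ‖ := by
        rw [← (reg N).norm s, map_sub]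
        have h8 : (reg N).hom s ((reg N).hom s⁻¹ (E φ)) = E φ := by
          have h9 : ((reg N).hom s * (reg N).hom s⁻¹) (E φ) = E φ := by
            rw [← map_mul, mul_inv_cancel, map_one]
            rfl
          exact h9
        rw [h8, norm_sub_rev]
      rw [h7] at h6
      refine le_trans (le_of_eq ?_) (h6.trans (hmove s hs))
      congr 1
      refine Finset.sum_congr rfl fun x _ => ?_
      have h10 : ((reg N).hom s⁻¹ (E φ) - E φ : lp (fun _ : N => ℂ) 2) x = φ (s * x) - φ x := by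
        change ((reg N).hom s⁻¹ (E φ) : lp (fun _ : N => ℂ) 2) x - (E φ : lp (fun _ : N => ℂ) 2) x = _
        rw [hom_E, E_apply, inv_inv]
      rw [h10]
    have hB : Real.sqrt (∑ x ∈ φ.support, (‖φ x‖ + ‖φ (s * x)‖) ^ 2) ≤ 2 * ‖E φ‖ := by
      have h6 := hgen (E φ)
      have h7 := hgen ((reg N).hom s⁻¹ (E φ))
      rw [(reg N).norm] at h7
      rw [Real.sqrt_le_left (norm_nonneg _)] at h6 h7
      rw [Real.sqrt_le_left (by positivity)]
      have h8 : ∑ x ∈ φ.support, (‖φ x‖ + ‖φ (s * x)‖) ^ 2 ≤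
          2 * ∑ x ∈ φ.support, ‖(E φ : lp (fun _ : N => ℂ) 2) x‖ ^ 2 +
          2 * ∑ x ∈ φ.support, ‖((reg N).hom s⁻¹ (E φ) : lp (fun _ : N => ℂ) 2) x‖ ^ 2 := by
        rw [Finset.mul_sum, Finset.mul_sum, ← Finset.sum_add_distrib]
        refine Finset.sum_le_sum fun x _ => ?_
        rw [hom_E, E_apply, inv_inv]
        nlinarith [sq_nonneg (‖φ x‖ - ‖φ (s * x)‖)]
      nlinarith
    exact mul_le_mul hA hB (Real.sqrt_nonneg _) (by positivity)
  refine Nam.layer (fun x => ‖φ x‖ ^ 2) (fun x => sq_nonneg _) φ.support (fun x hx => ?_) S ε ?_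
  · rw [Finsupp.notMem_support_iff.1 hx]
    simp
  · refine (Finset.sum_le_sum hone).trans_lt ?_
    rw [Finset.sum_const, nsmul_eq_mul, ← hm]
    have h1 : ∑ x ∈ φ.support, ‖φ x‖ ^ 2 = ‖E φ‖ ^ 2 := (norm_E φ).symm
    rw [h1]
    have h2 : m * (3 * δ * (2 * ‖E φ‖)) ≤ 9 * (m * δ) := by
      have : 0 ≤ m * δ := by positivity
      nlinarith
    have h3 : ε * (1 / 4) ≤ ε * ‖E φ‖ ^ 2 := by
      refine mul_le_mul_of_nonneg_left ?_ hε.le
      nlinarith
    nlinarith

end

end Pool.Agent.Q169.PT.Br
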