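import Pool.Agent.Q169.PT.Stm2

set_option autoImplicit false
set_option linter.unusedSectionVars false

namespace Pool.Agent.Q169.PT.Gn

open Filter Topology UniformSpace

noncomputable section

variable (G : Type) [Group G]

/-- a positive definite function -/
structure PDF where
  φ : G → ℂ
  symm : ∀ g, (starRingEnd ℂ) (φ g⁻¹) = φ g
  pos : ∀ c : G →₀ ℂ, 0 ≤ (c.sum fun g a => c.sum fun h b =>
      (starRingEnd ℂ) a * b * φ (g⁻¹ * h)).re

variable {G} (F : PDF G)

/-- the space of finitely supported functions -/
def M (_ : PDF G) : Type := G →₀ ℂ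

instance : AddCommGroup (M F) := inferInstanceAs (AddCommGroup (G →₀ ℂ))

instance : Module ℂ (M F) := inferInstanceAs (Module ℂ (G →₀ ℂ))

/-- the underlying function -/
def M.fn {F : PDF G} (x : M F) : G →₀ ℂ := x

/-- the form -/
def B (x y : G →₀ ℂ) : ℂ := x.sum fun g a => y.sum fun h b => (starRingEnd ℂ) a * b * F.φ (g⁻¹ * h)

lemma B_add_left (x x' y : G →₀ ℂ) : B F (x + x') y = B F x y + B F x' y := by
  unfold B
  rw [Finsupp.sum_add_index' (by simp)]
  intro g a a'
  rw [← Finsupp.sum_add]
  refine Finsupp.sum_congr fun h _ => ?_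
  rw [map_add]
  ring

lemma B_smul_left (r : ℂ) (x y : G →₀ ℂ) : B F (r • x) y = (starRingEnd ℂ) r * B F x y := by
  unfold B
  rw [Finsupp.sum_smul_index (by simp), Finsupp.mul_sum]
  refine Finsupp.sum_congr fun g _ => ?_
  rw [Finsupp.mul_sum]
  refine Finsupp.sum_congr fun h _ => ?_
  rw [map_mul]
  ring

lemma B_symm (x y : G →₀ ℂ) : (starRingEnd ℂ) (B F y x) = B F x y := by
  unfold B Finsupp.sum
  rw [map_sum]
  simp only [map_sum]
  rw [Finset.sum_comm]
  refine Finset.sum_congr rfl fun g _ => Finset.sum_congr rfl fun h _ => ?_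
  rw [map_mul, map_mul, Complex.conj_conj]
  have := F.symm (g⁻¹ * h)
  rw [mul_inv_rev, inv_inv] at this
  rw [this]
  ring

lemma B_tr (g : G) (x y : G →₀ ℂ) :
    B F (x.mapDomain (fun h => g * h)) (y.mapDomain (fun h => g * h)) = B F x y := by
  unfold B
  rw [Finsupp.sum_mapDomain_index (by simp)]
  · refine Finsupp.sum_congr fun a _ => ?_
    rw [Finsupp.sum_mapDomain_index (by simp)]
    · refine Finsupp.sum_congr fun b _ => ?_
      congr 2
      group
    · intro b m n
      ring
  · intro a m n
    rw [← Finsupp.sum_add]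
    refine Finsupp.sum_congr fun h _ => ?_
    rw [map_add]
    ring

/-- the semi-inner product -/
@[instance_reducible]
def core : PreInnerProductSpace.Core ℂ (M F) where
  inner x y := B F x.fn y.fn
  conj_inner_symm _ _ := B_symm F _ _
  re_inner_nonneg x := F.pos x.fn
  add_left _ _ _ := B_add_left F _ _ _
  smul_left _ _ _ := B_smul_left F _ _ _

instance : SeminormedAddCommGroup (M F) :=
  @InnerProductSpace.Core.toSeminormedAddCommGroup ℂ (M F) _ _ _ (core F)

instance : InnerProductSpace ℂ (M F) := InnerProductSpace.ofCore (core F)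

theorem inner_def (x y : M F) : inner ℂ x y = B F x.fn y.fn := rfl

/-- the action -/
def tr (g : G) : M F →ₗ[ℂ] M F := Finsupp.lmapDomain ℂ ℂ (fun h => g * h)

theorem tr_fn (g : G) (x : M F) : (tr F g x).fn = x.fn.mapDomain (fun h => g * h) := rfl

theorem norm_tr (g : G) (x : M F) : ‖tr F g x‖ = ‖x‖ := by
  have h1 : ‖tr F g x‖ ^ 2 = ‖x‖ ^ 2 := by
    rw [← @inner_self_eq_norm_sq ℂ, ← @inner_self_eq_norm_sq ℂ, inner_def, inner_def, tr_fn, B_tr]
  exact (pow_left_inj₀ (norm_nonneg _) (norm_nonneg _) two_ne_zero).1 h1

/-- the inclusion in the completion -/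
def inc : M F →ₗ[ℂ] Completion (M F) := (Completion.toComplL (𝕜 := ℂ) (E := M F)).toLinearMap

theorem norm_inc (x : M F) : ‖inc F x‖ = ‖x‖ := Completion.norm_coe x

theorem inner_inc (x y : M F) : inner ℂ (inc F x) (inc F y) = B F x.fn y.fn :=
  Completion.inner_coe x y

theorem dense_inc : DenseRange (inc F) := Completion.denseRange_coe

/-- the extension to the completion -/
def ext (g : G) : Completion (M F) →L[ℂ] Completion (M F) :=
  (inc F ∘ₗ tr F g).extendOfNorm (inc F)

theorem ext_inc (g : G) (x : M F) : ext F g (inc F x) = inc F (tr F g x) := by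
  unfold ext
  rw [LinearMap.extendOfNorm_eq (dense_inc F)]
  · rfl
  · exact ⟨1, fun x => by rw [LinearMap.comp_apply, norm_inc, norm_inc, norm_tr, one_mul]⟩

/-- the representation on the completion -/
def rp : Rep G (Completion (M F)) where
  hom :=
    { toFun := ext F
      map_one' := by
        refine ContinuousLinearMap.ext fun v => ?_
        refine (dense_inc F).induction_on v (isClosed_eq (by fun_prop) (by fun_prop)) fun x => ?_
        rw [ext_inc]
        change inc F _ = inc F x
        congr 1
        change Finsupp.mapDomain (fun h => 1 * h) x.fn = x.fn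
        simp only [one_mul]
        exact Finsupp.mapDomain_id
      map_mul' := fun g h => by
        refine ContinuousLinearMap.ext fun v => ?_
        refine (dense_inc F).induction_on v (isClosed_eq (by fun_prop) (by fun_prop)) fun x => ?_
        rw [ext_inc]
        change _ = ext F g (ext F h (inc F x))
        rw [ext_inc, ext_inc]
        congr 1
        change Finsupp.mapDomain (fun k => g * h * k) x.fn =
          Finsupp.mapDomain (fun k => g * k) (Finsupp.mapDomain (fun k => h * k) x.fn)
        rw [← Finsupp.mapDomain_comp]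
        congr 1
        funext k
        exact mul_assoc g h k }
  norm := fun g v => by
    change ‖ext F g v‖ = ‖v‖
    refine (dense_inc F).induction_on v (isClosed_eq (by fun_prop) (by fun_prop)) fun x => ?_
    rw [ext_inc, norm_inc, norm_inc, norm_tr]

/-- the element given by a function -/
def M.mk (x : G →₀ ℂ) : M F := x

end

/-- JOB GNS -/
theorem gns : S_GNS := by
  intro G _ φ hs hp
  let F : PDF G := ⟨φ, hs, hp⟩
  refine ⟨Completion (M F), inferInstance, inferInstance, inferInstance, rp F,
    inc F (M.mk F (Finsupp.single 1 1)), fun g => ?_⟩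
  change inner ℂ _ (ext F g _) = _
  rw [ext_inc, inner_inc, tr_fn]
  change B F (Finsupp.single 1 1) (Finsupp.mapDomain (fun h => g * h) (Finsupp.single 1 1)) = _
  rw [Finsupp.mapDomain_single, B, Finsupp.sum_single_index (by simp),
    Finsupp.sum_single_index (by simp)]
  simp [F]

end Pool.Agent.Q169.PT.Gn
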