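import Pool.Agent.Q169.PT.Stm3
import Pool.Agent.TH38.ZT.Gen

set_option autoImplicit false

namespace Pool.Agent.Q169.PT.Sh

open scoped Matrix
open Pool.Agent.H919R4.ZS (FinRes augm d_mul_d)

noncomputable section

variable {G : Type} [Group G]

/-- the cycles in degree `i + 1` -/
def Z (X : FinRes G) (i : ℕ) : Submodule (MonoidAlgebra ℤ G) (Fin (X.n (i + 1)) → MonoidAlgebra ℤ G) :=
  LinearMap.ker (X.d i).vecMulLinear

lemma mem_Z (X : FinRes G) (i : ℕ) (x : Fin (X.n (i + 1)) → MonoidAlgebra ℤ G) :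
    x ∈ Z X i ↔ x ᵥ* X.d i = 0 := Iff.rfl

/-- stably free cycles -/
def SF (X : FinRes G) (i : ℕ) : Prop :=
  ∃ b c : ℕ, Nonempty ((Z X i × (Fin b → MonoidAlgebra ℤ G)) ≃ₗ[MonoidAlgebra ℤ G]
    (Fin c → MonoidAlgebra ℤ G))

/-- the cycles are a direct summand -/
def Sp (X : FinRes G) (i : ℕ) : Prop :=
  ∃ r : (Fin (X.n (i + 1)) → MonoidAlgebra ℤ G) →ₗ[MonoidAlgebra ℤ G] Z X i, ∀ z : Z X i, r z = z

/-- `d : C_(i+2) → Z_(i+1)` -/
def dZ (X : FinRes G) (i : ℕ) :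
    (Fin (X.n (i + 1 + 1)) → MonoidAlgebra ℤ G) →ₗ[MonoidAlgebra ℤ G] Z X i :=
  LinearMap.codRestrict (Z X i) (X.d (i + 1)).vecMulLinear fun x => by
    rw [mem_Z]
    change (x ᵥ* X.d (i + 1)) ᵥ* X.d i = 0
    rw [Matrix.vecMul_vecMul, d_mul_d, Matrix.vecMul_zero]

lemma dZ_coe (X : FinRes G) (i : ℕ) (x : Fin (X.n (i + 1 + 1)) → MonoidAlgebra ℤ G) :
    ((dZ X i x : Z X i) : Fin (X.n (i + 1)) → MonoidAlgebra ℤ G) = x ᵥ* X.d (i + 1) := rfl

lemma dZ_surj (X : FinRes G) (i : ℕ) (w : Z X i) : ∃ x, dZ X i x = w := by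
  obtain ⟨x, hx⟩ := (X.exact_succ i w.1).1 w.2
  exact ⟨x, Subtype.ext hx⟩

lemma dZ_zero (X : FinRes G) (i : ℕ) (x : Fin (X.n (i + 1 + 1)) → MonoidAlgebra ℤ G) :
    dZ X i x = 0 ↔ x ∈ Z X (i + 1) := by
  rw [mem_Z, ← dZ_coe]
  exact Submodule.coe_eq_zero.symm

/-- the splitting -/
theorem split (X : FinRes G) (i : ℕ)
    (r : (Fin (X.n (i + 1 + 1)) → MonoidAlgebra ℤ G) →ₗ[MonoidAlgebra ℤ G] Z X (i + 1))
    (hr : ∀ z : Z X (i + 1), r z = z) :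
    ∃ e : (Fin (X.n (i + 1 + 1)) → MonoidAlgebra ℤ G) ≃ₗ[MonoidAlgebra ℤ G]
      (Z X (i + 1) × Z X i), ∀ x, e x = (r x, dZ X i x) := by
  refine ⟨LinearEquiv.ofBijective (r.prod (dZ X i)) ⟨?_, ?_⟩, fun x => rfl⟩
  · rw [← LinearMap.ker_eq_bot, LinearMap.ker_eq_bot']
    intro x hx
    have h1 : r x = 0 := (Prod.mk.inj hx).1
    have h2 : dZ X i x = 0 := (Prod.mk.inj hx).2
    have h3 := hr ⟨x, (dZ_zero X i x).1 h2⟩
    have h4 : (⟨x, (dZ_zero X i x).1 h2⟩ : Z X (i + 1)) = 0 := by rw [← h3]; exact h1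
    exact congrArg Subtype.val h4
  · rintro ⟨z, w⟩
    obtain ⟨x, hx⟩ := dZ_surj X i w
    refine ⟨x - (r x : Fin (X.n (i + 1 + 1)) → MonoidAlgebra ℤ G) + z, ?_⟩
    have hz : ∀ u : Z X (i + 1), dZ X i u = 0 := fun u => (dZ_zero X i u).2 u.2
    refine Prod.ext ?_ ?_
    · change r (x - (r x : Fin (X.n (i + 1 + 1)) → MonoidAlgebra ℤ G) + z) = z
      rw [map_add, map_sub, hr, hr, sub_self, zero_add]
    · change dZ X i (x - (r x : Fin (X.n (i + 1 + 1)) → MonoidAlgebra ℤ G) + z) = w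
      rw [map_add, map_sub, hz, hz, sub_zero, add_zero, hx]

theorem sf_step (X : FinRes G) (i : ℕ) (h1 : SF X (i + 1)) (h2 : Sp X (i + 1)) : SF X i := by
  obtain ⟨b, c, ⟨e⟩⟩ := h1
  obtain ⟨r, hr⟩ := h2
  obtain ⟨s, -⟩ := split X i r hr
  refine ⟨c, X.n (i + 1 + 1) + b, ⟨?_⟩⟩
  exact ((LinearEquiv.refl _ _).prodCongr e.symm).trans
    (((LinearEquiv.prodAssoc _ _ _ _).symm.trans
      (((LinearEquiv.prodComm _ _ _).trans s.symm).prodCongr (LinearEquiv.refl _ _))).trans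
      ((LinearEquiv.sumArrowLequivProdArrow _ _ _ _).symm.trans
        (LinearEquiv.funCongrLeft _ _ finSumFinEquiv.symm)))

theorem sp_step (X : FinRes G) (i : ℕ) (h2 : Sp X (i + 1))
    (hc : ∀ y : Fin (X.n (i + 1 + 1)) → MonoidAlgebra ℤ G, X.d (i + 1 + 1) *ᵥ y = 0 →
      ∃ z, X.d (i + 1) *ᵥ z = y) : Sp X i := by
  obtain ⟨r, hr⟩ := h2
  obtain ⟨s, hs⟩ := split X i r hr
  -- the section
  let u : Z X i →ₗ[MonoidAlgebra ℤ G] (Fin (X.n (i + 1 + 1)) → MonoidAlgebra ℤ G) :=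
    s.symm.toLinearMap ∘ₗ LinearMap.inr _ _ _
  have hu : ∀ w, dZ X i (u w) = w := by
    intro w
    have h := hs (u w)
    have h' : s (u w) = (0, w) := LinearEquiv.apply_symm_apply s _
    rw [h'] at h
    exact (Prod.mk.inj h).2.symm
  let q : (Fin (X.n (i + 1 + 1)) → MonoidAlgebra ℤ G) →ₗ[MonoidAlgebra ℤ G]
      (Fin (X.n (i + 1 + 1)) → MonoidAlgebra ℤ G) := u ∘ₗ dZ X i
  let Q : Matrix (Fin (X.n (i + 1 + 1))) (Fin (X.n (i + 1 + 1))) (MonoidAlgebra ℤ G) :=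
    fun k => q (Pi.single k 1)
  have hQ : ∀ x, x ᵥ* Q = q x := by
    intro x
    have h1 : x = ∑ k, x k • (Pi.single k (1 : MonoidAlgebra ℤ G) : Fin (X.n (i + 1 + 1)) → MonoidAlgebra ℤ G) := by
      funext j
      simp [Finset.sum_apply, Pi.single_apply]
    conv_rhs => rw [h1, map_sum]
    funext j
    simp only [Matrix.vecMul, dotProduct, Finset.sum_apply, map_smul, Pi.smul_apply, smul_eq_mul]
    rfl
  have hQ0 : X.d (i + 1 + 1) * Q = 0 := by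
    ext k j
    have : (X.d (i + 1 + 1) * Q) k = 0 := by
      rw [Matrix.mul_apply_eq_vecMul, hQ]
      change u (dZ X i (X.d (i + 1 + 1) k)) = 0
      have h3 : dZ X i (X.d (i + 1 + 1) k) = 0 := by
        rw [dZ_zero, mem_Z, ← Matrix.mul_apply_eq_vecMul, d_mul_d]
        rfl
      rw [h3, map_zero]
    rw [this]; rfl
  have hT : ∀ j, ∃ z, X.d (i + 1) *ᵥ z = fun k => Q k j := by
    intro j
    refine hc _ ?_
    funext k
    exact congrFun (congrFun hQ0 k) j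
  choose T hT using hT
  let T' : Matrix (Fin (X.n (i + 1))) (Fin (X.n (i + 1 + 1))) (MonoidAlgebra ℤ G) := fun k j => T j k
  have hT' : X.d (i + 1) * T' = Q := Matrix.ext fun k j => congrFun (hT j) k
  refine ⟨dZ X i ∘ₗ T'.vecMulLinear, ?_⟩
  intro w
  obtain ⟨x, rfl⟩ := dZ_surj X i w
  change dZ X i ((x ᵥ* X.d (i + 1)) ᵥ* T') = dZ X i x
  rw [Matrix.vecMul_vecMul, hT', hQ]
  exact hu _

theorem base (X : FinRes G) (i : ℕ) (hi : X.len ≤ i) : SF X i ∧ Sp X i := by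
  have h0 : X.n (i + 1) = 0 := X.n_eq_zero _ (by omega)
  have : IsEmpty (Fin (X.n (i + 1))) := by rw [h0]; infer_instance
  have : Subsingleton (Z X i) := ⟨fun a b => Subtype.ext (Subsingleton.elim _ _)⟩
  refine ⟨⟨0, 0, ⟨?_⟩⟩, ⟨0, fun z => Subsingleton.elim _ _⟩⟩
  have : Subsingleton (Z X i × (Fin 0 → MonoidAlgebra ℤ G)) :=
    ⟨fun a b => Prod.ext (Subsingleton.elim _ _) (Subsingleton.elim _ _)⟩
  exact LinearEquiv.ofSubsingleton _ _

theorem down (X : FinRes G)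
    (hc : ∀ i, 2 ≤ i → ∀ y : Fin (X.n (i + 1 + 1)) → MonoidAlgebra ℤ G, X.d (i + 1 + 1) *ᵥ y = 0 →
      ∃ z, X.d (i + 1) *ᵥ z = y) (m : ℕ) : ∀ i, 2 ≤ i → X.len ≤ i + m → SF X i ∧ Sp X i := by
  induction m with
  | zero => exact fun i _ hi => base X i hi
  | succ m ih =>
    intro i h2 hi
    have h := ih (i + 1) (by omega) (by omega)
    exact ⟨sf_step X i h.1 h.2, sp_step X i h.2 (hc i h2)⟩

/-! ### the short resolution -/

section short

variable (X : FinRes G) {b c : ℕ} (e : (Z X 1 × (Fin b → MonoidAlgebra ℤ G)) ≃ₗ[MonoidAlgebra ℤ G]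
    (Fin c → MonoidAlgebra ℤ G))

/-- `Z X 1 × ℤ[G]^b` in `ℤ[G]^(n 2 + b)` -/
def inc (b : ℕ) : (Z X 1 × (Fin b → MonoidAlgebra ℤ G)) →ₗ[MonoidAlgebra ℤ G]
    (Fin (X.n 2 + b) → MonoidAlgebra ℤ G) where
  toFun p := Fin.append p.1.1 p.2
  map_add' p q := by
    funext j
    refine Fin.addCases (fun j => ?_) (fun j => ?_) j
    · simp [Fin.append_left]
    · simp [Fin.append_right]
  map_smul' a p := by
    funext j
    refine Fin.addCases (fun j => ?_) (fun j => ?_) j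
    · simp [Fin.append_left]
    · simp [Fin.append_right]

lemma inc_left (b : ℕ) (p : Z X 1 × (Fin b → MonoidAlgebra ℤ G)) (j : Fin (X.n 2)) :
    inc X b p (Fin.castAdd b j) = p.1.1 j := Fin.append_left _ _ _

lemma inc_right (b : ℕ) (p : Z X 1 × (Fin b → MonoidAlgebra ℤ G)) (j : Fin b) :
    inc X b p (Fin.natAdd _ j) = p.2 j := Fin.append_right _ _ _

lemma inc_inj (b : ℕ) (p q : Z X 1 × (Fin b → MonoidAlgebra ℤ G)) (h : inc X b p = inc X b q) :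
    p = q := by
  refine Prod.ext (Subtype.ext (funext fun j => ?_)) (funext fun j => ?_)
  · rw [← inc_left, ← inc_left, h]
  · rw [← inc_right, ← inc_right, h]

/-- the new differentials -/
def d1 (b : ℕ) : Matrix (Fin (X.n 2 + b)) (Fin (X.n 1)) (MonoidAlgebra ℤ G) :=
  fun k j => Fin.addCases (fun k => X.d 1 k j) (fun _ => 0) k

lemma vec_d1 (b : ℕ) (x : Fin (X.n 2 + b) → MonoidAlgebra ℤ G) :
    x ᵥ* d1 X b = (fun j => x (Fin.castAdd b j)) ᵥ* X.d 1 := by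
  funext j
  simp [Matrix.vecMul, dotProduct, Fin.sum_univ_add, d1]

/-- the new differential in degree three -/
def d2 : Matrix (Fin c) (Fin (X.n 2 + b)) (MonoidAlgebra ℤ G) :=
  fun k => inc X b (e.symm (Pi.single k 1))

lemma vec_d2 (x : Fin c → MonoidAlgebra ℤ G) : x ᵥ* d2 X e = inc X b (e.symm x) := by
  have h1 : x = ∑ k, x k • (Pi.single k (1 : MonoidAlgebra ℤ G) : Fin c → MonoidAlgebra ℤ G) := by
    funext j
    simp [Finset.sum_apply, Pi.single_apply]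
  conv_rhs => rw [h1, map_sum, map_sum]
  funext j
  simp only [Matrix.vecMul, dotProduct, Finset.sum_apply, map_smul, Pi.smul_apply, smul_eq_mul]
  rfl

lemma ex0 (x : Fin (X.n 1) → MonoidAlgebra ℤ G) :
    x ᵥ* X.d 0 = 0 ↔ ∃ y : Fin (X.n 2 + b) → MonoidAlgebra ℤ G, y ᵥ* d1 X b = x := by
  rw [X.exact_succ 0]
  constructor
  · rintro ⟨y, rfl⟩
    refine ⟨Fin.append y 0, ?_⟩
    rw [vec_d1]
    simp only [Fin.append_left]
  · rintro ⟨y, rfl⟩
    exact ⟨_, (vec_d1 X b y).symm⟩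

lemma ex1 (x : Fin (X.n 2 + b) → MonoidAlgebra ℤ G) :
    x ᵥ* d1 X b = 0 ↔ ∃ y : Fin c → MonoidAlgebra ℤ G, y ᵥ* d2 X e = x := by
  rw [vec_d1]
  constructor
  · intro h
    refine ⟨e (⟨fun j => x (Fin.castAdd b j), h⟩, fun j => x (Fin.natAdd _ j)), ?_⟩
    rw [vec_d2, LinearEquiv.symm_apply_apply]
    funext j
    refine Fin.addCases (fun j => ?_) (fun j => ?_) j
    · rw [inc_left]
    · rw [inc_right]
  · rintro ⟨y, rfl⟩
    rw [vec_d2]
    have h := (e.symm y).1.2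
    rw [mem_Z] at h
    have h2 : (fun j => inc X b (e.symm y) (Fin.castAdd b j)) = (e.symm y).1.1 :=
      funext fun j => inc_left X b _ j
    rw [h2]
    exact h

lemma ex2 (x : Fin c → MonoidAlgebra ℤ G) :
    x ᵥ* d2 X e = 0 ↔ ∃ y : Fin 0 → MonoidAlgebra ℤ G,
      y ᵥ* (0 : Matrix (Fin 0) (Fin c) (MonoidAlgebra ℤ G)) = x := by
  rw [vec_d2]
  constructor
  · intro h
    refine ⟨0, ?_⟩
    rw [Matrix.zero_vecMul]
    have h2 : e.symm x = 0 := inc_inj X b _ _ (by rw [h, map_zero])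
    have h3 : e (e.symm x) = e 0 := by rw [h2]
    rw [LinearEquiv.apply_symm_apply, map_zero] at h3
    exact h3.symm
  · rintro ⟨y, rfl⟩
    rw [Matrix.vecMul_zero, map_zero, map_zero]

lemma ex3 {m : ℕ} (x : Fin 0 → MonoidAlgebra ℤ G) (M : Matrix (Fin 0) (Fin m) (MonoidAlgebra ℤ G))
    (N : Matrix (Fin 0) (Fin 0) (MonoidAlgebra ℤ G)) :
    x ᵥ* M = 0 ↔ ∃ y, y ᵥ* N = x := by
  have h : x = 0 := Subsingleton.elim _ _
  subst h
  exact ⟨fun _ => ⟨0, Matrix.zero_vecMul _⟩, fun _ => Matrix.zero_vecMul _⟩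

/-- the ranks -/
def nn (b c : ℕ) : ℕ → ℕ
  | 0 => X.n 0
  | 1 => X.n 1
  | 2 => X.n 2 + b
  | 3 => c
  | _ + 4 => 0

/-- the differentials -/
def dd : ∀ i, Matrix (Fin (nn X b c (i + 1))) (Fin (nn X b c i)) (MonoidAlgebra ℤ G)
  | 0 => X.d 0
  | 1 => d1 X b
  | 2 => d2 X e
  | _ + 3 => 0

/-- the short resolution -/
def sh : FinRes G where
  len := 3
  n := nn X b c
  d := dd X e
  aug := X.aug
  n_eq_zero i hi := by
    obtain ⟨j, rfl⟩ : ∃ j, i = j + 4 := ⟨i - 4, by omega⟩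
    rfl
  surj := X.surj
  exact_zero := X.exact_zero
  exact_succ
    | 0 => ex0 X
    | 1 => ex1 X e
    | 2 => ex2 X e
    | _ + 3 => fun x => ex3 x _ _

end short

theorem short : S_SHORT := by
  intro G _ X hX
  have hc : ∀ i, 2 ≤ i → ∀ y : Fin (X.n (i + 1 + 1)) → MonoidAlgebra ℤ G,
      X.d (i + 1 + 1) *ᵥ y = 0 → ∃ z, X.d (i + 1) *ᵥ z = y := by
    intro i hi y hy
    have h := hX (i + 1 + 1) (by omega)
    have hy' : y ∈ (X.cobd (i + 1 + 1)).ker := hy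
    have h1 := Subsingleton.elim (QuotientAddGroup.mk ⟨y, hy'⟩ : X.cohomology (i + 1 + 1)) 0
    rw [QuotientAddGroup.eq_zero_iff, AddSubgroup.mem_addSubgroupOf] at h1
    exact h1
  obtain ⟨h2, h3⟩ := down X hc X.len 2 le_rfl (by omega)
  obtain ⟨b, c, ⟨e⟩⟩ := sf_step X 1 h2 h3
  exact ⟨sh X e, le_rfl⟩

end

end Pool.Agent.Q169.PT.Sh
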