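import Pool.Agent.Q169.PT.All
import Pool.Agent.Q169.PT.Short
import Pool.Agent.Q169.PT.Gns
import Pool.Agent.Q38.PT.Kaz
import Pool.Agent.Q38.PT.Expk
import Pool.Agent.Q38.PT.Center

set_option autoImplicit false

namespace Pool.Agent.Q169.PT

open Pool.Agent.H919R4.ZS (FinRes toRed L2)

theorem kazhdan : S_KAZ :=
  Pool.Agent.Q38.PT.Ka.kaz Gn.gns Pool.Agent.Q38.PT.Ex.expk Pool.Agent.Q38.PT.Ce.center

/-- arbitrary length -/
theorem all2 (hco : S_COHI) {G : Type} [Group G] (X : FinRes G)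
    (hc : ∀ i, i ≠ 3 → Subsingleton (X.cohomology i))
    (he : Nonempty (X.cohomology 3 ≃+ ℤ)) :
    (∃ (H : Type) (_ : NormedAddCommGroup H) (_ : InnerProductSpace ℂ H) (_ : CompleteSpace H)
      (π : Rep G H), Tempered π ∧ ¬ Van1 π) ∧ ¬ KazhdanT G := by
  obtain ⟨X', hX'⟩ := Sh.short G X fun i hi => hc i (by omega)
  have hc' : ∀ i ≤ 2, Subsingleton (X'.cohomology i) := by
    intro i hi
    obtain ⟨f⟩ := hco G X X' i
    have := hc i (by omega)
    exact f.symm.toEquiv.subsingleton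
  have he' : Nonempty (X'.cohomology 3 ≃+ ℤ) := by
    obtain ⟨f⟩ := hco G X X' 3
    obtain ⟨e⟩ := he
    exact ⟨f.symm.trans e⟩
  have h := all X' hX' hc' he'
  refine ⟨h, fun hT => ?_⟩
  obtain ⟨H, _, _, _, π, -, hπ⟩ := h
  exact hπ (kazhdan G hT H π)

end Pool.Agent.Q169.PT
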