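import Pool.Agent.Q169.PT.Stm
import Pool.Agent.Q111.FT.ConvB

set_option autoImplicit false

namespace Pool.Agent.Q169.PT

open scoped Matrix
open Pool.Agent.H919R4.ZS (FinRes toRed L2 lregL augm L act)
open Pool.Agent.TH38.ZT (ExAt exAt_iff dd)
open Pool.Agent.Q111.FT (HH DD Ex ce opM opM_apply DD_DD)
open ContinuousLinearMap (adjoint)

noncomputable section

variable {G : Type} [Group G]

theorem reg_tempered : Tempered (reg G) := fun _ _ h v => h v

theorem reg_alg (a : MonoidAlgebra ℤ G) : (reg G).alg a = L a := by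
  refine MonoidAlgebra.induction_linear a ?_ ?_ ?_
  · rw [map_zero, map_zero]
  · intro x y hx hy
    rw [map_add, map_add, hx, hy]
  · intro g r
    rw [Pool.Agent.H919R4.ZS.L_single]
    change MonoidAlgebra.liftNC _ _ _ = _
    rw [MonoidAlgebra.liftNC_single]
    change ((r : ℤ) : L2 G →L[ℂ] L2 G) * lregL g = r • lregL g
    rw [← zsmul_eq_mul]

theorem DD_apply (X : FinRes G) (i : ℕ) (v : HH G (X.n i)) (k : Fin (X.n (i + 1))) :
    (DD X i v) k = dm (reg G) X i (fun j => v j) k := by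
  unfold DD dm
  rw [opM_apply]
  exact Finset.sum_congr rfl fun j _ => by rw [reg_alg]; rfl

/-- tuples as elements of the Hilbert sum -/
def mk (a : ℕ) (v : Fin a → L2 G) : HH G a := (ce G a).symm v

omit [Group G] in
theorem mk_apply (a : ℕ) (v : Fin a → L2 G) (j : Fin a) : (mk a v) j = v j := rfl

/-- the adjoints of the differentials -/
theorem adj_apply (X X' : FinRes G) (i i' : ℕ) (π : Rep G (L2 G)) (w : G →* ℤˣ)
    (hπ : ∀ a b : MonoidAlgebra ℤ G, (∀ g, b.coeff g = (w g : ℤ) * a.coeff g⁻¹) →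
      ∀ x y : L2 G, inner ℂ (π.alg b x) y = inner ℂ x ((reg G).alg a y))
    (e : Fin (X'.n i') ≃ Fin (X.n (i + 1))) (e' : Fin (X'.n (i' + 1)) ≃ Fin (X.n i))
    (h : ∀ j k g, (X'.d i' j k).coeff g = (w g : ℤ) * (X.d i (e k) (e' j)).coeff g⁻¹)
    (z : HH G (X.n (i + 1))) (j : Fin (X'.n (i' + 1))) :
    (adjoint (DD X i) z) (e' j) = dm π X' i' (fun k => z (e k)) j := by
  refine ext_inner_right ℂ fun y => ?_
  have h1 : inner ℂ ((adjoint (DD X i) z) (e' j)) y =
      inner ℂ (adjoint (DD X i) z) (mk (X.n i) (Pi.single (e' j) y)) := by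
    rw [PiLp.inner_apply, Finset.sum_eq_single (e' j)]
    · rw [mk_apply, Pi.single_eq_same]
    · intro b _ hb
      rw [mk_apply, Pi.single_eq_of_ne hb, inner_zero_right]
    · intro h
      exact absurd (Finset.mem_univ _) h
  rw [h1, ContinuousLinearMap.adjoint_inner_left, PiLp.inner_apply]
  unfold dm
  rw [sum_inner, ← e.sum_comp]
  refine Finset.sum_congr rfl fun k _ => ?_
  rw [hπ (X.d i (e k) (e' j)) _ (h j k), DD_apply]
  unfold dm
  congr 1
  rw [Finset.sum_eq_single (e' j)]
  · change ((reg G).alg (X.d i (e k) (e' j))) ((Pi.single (e' j) y : Fin _ → L2 G) (e' j)) = _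
    rw [Pi.single_eq_same]
  · intro b _ hb
    change ((reg G).alg (X.d i (e k) b)) ((Pi.single (e' j) y : Fin _ → L2 G) b) = _
    rw [Pi.single_eq_of_ne hb, map_zero]
  · intro h
    exact absurd (Finset.mem_univ _) h

omit [Group G] in
theorem norm_sq_eq {a b : ℕ} (e : Fin a ≃ Fin b) (v : HH G b) : ‖v‖ ^ 2 = ∑ j, ‖v (e j)‖ ^ 2 := by
  rw [PiLp.norm_sq_eq_of_L2, e.sum_comp (fun k => ‖v k‖ ^ 2)]

/-- the final theorem -/
theorem final' (hfh : S_FHONE) (hinv : S_INV) (hcl : S_CLOSED) (htw : S_TWIST) (hh : S_HIL)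
    (hinf : S_INF) (hori : S_ORI) (hdual : S_DUAL) (hpdc : S_PDC)
    (X : FinRes G) (hlen : X.len ≤ 3) (hc : ∀ i ≤ 2, Subsingleton (X.cohomology i))
    (he : Nonempty (X.cohomology 3 ≃+ ℤ)) :
    ∃ (H : Type) (_ : NormedAddCommGroup H) (_ : InnerProductSpace ℂ H) (_ : CompleteSpace H)
      (π : Rep G H), Tempered π ∧ ¬ Van1 π := by
  by_contra hcon
  have hvan : ∀ (H' : Type) [NormedAddCommGroup H'] [InnerProductSpace ℂ H'] [CompleteSpace H']
      (π' : Rep G H'), Tempered π' → Van1 π' := by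
    intro H' i1 i2 i3 π' hπ'
    by_contra h
    exact hcon ⟨H', i1, i2, i3, π', hπ', h⟩
  have hG : Infinite G := hinf G X (hc 0 (by norm_num))
  obtain ⟨w, ε, hO⟩ := hori G X hlen he
  obtain ⟨X', e0, e1, e2, h0, h1⟩ := hdual G X hlen hc w ε hO
  obtain ⟨π, -, hπT, hπi, hπa⟩ := htw G w
  have hπi := hπi hG
  -- the regular representation has no invariant vectors
  have hri : ∀ f : L2 G, (∀ g, (reg G).hom g f = f) → f = 0 := by
    obtain ⟨ρ, hρ, -, hρi, -⟩ := htw G 1
    intro f hf
    refine hρi hG f fun g => ?_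
    rw [hρ, hf]
    simp
  have d1 : ∀ v, dm (reg G) X 0 v = 0 → v = 0 := hinv G (L2 G) X (reg G) hri
  have d2 : ∀ v : Fin (X.n 1) → L2 G, dm (reg G) X 1 v = 0 → ∃ w, dm (reg G) X 0 w = v :=
    hfh G (L2 G) X (reg G) (hvan (L2 G) (reg G) reg_tempered)
  have d3 : ∀ v, dm π X' 0 v = 0 → v = 0 := hinv G (L2 G) X' π hπi
  have d4 : ∀ v : Fin (X'.n 1) → L2 G, dm π X' 1 v = 0 → ∃ w, dm π X' 0 w = v :=
    hfh G (L2 G) X' π (hvan (L2 G) π hπT)
  obtain ⟨δ, hδ, d5⟩ := hcl G (L2 G) X' π hπT hvan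
  -- the adjoints
  have a2 := adj_apply X X' 2 0 π w hπa e0 e1 h0
  have a1 := adj_apply X X' 1 1 π w hπa e1 e2 h1
  obtain ⟨f1, f2⟩ := hh (HH G (X.n 1)) (HH G (X.n 2)) (HH G (X.n 3)) (DD X 1) (DD X 2)
    (DD_DD X 1) (by
      intro z hz
      have h := d3 (fun k => z (e0 k)) (by
        funext j
        rw [← a2, hz]
        rfl)
      apply PiLp.ext
      intro j
      have := congrFun h (e0.symm j)
      rw [← e0.apply_symm_apply j]
      exact this) (by
      intro u hu
      obtain ⟨z, hz⟩ := d4 (fun k => u (e1 k)) (by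
        funext j
        rw [← a1, hu]
        rfl)
      refine ⟨mk (X.n 3) fun k => z (e0.symm k), ?_⟩
      apply PiLp.ext
      intro j
      rw [← e1.apply_symm_apply j, a2]
      have h3 : (fun k => (mk (X.n 3) fun k => z (e0.symm k)) (e0 k)) = z := by
        funext k
        rw [mk_apply, e0.symm_apply_apply]
      rw [h3, hz]) ⟨δ, hδ, by
      intro u hu
      have h := d5 (fun k => u (e1 k)) (by
        intro z
        have h := hu (mk (X.n 3) fun k => z (e0.symm k))
        rw [PiLp.inner_apply, ← e1.sum_comp] at h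
        rw [← h]
        refine Finset.sum_congr rfl fun k _ => ?_
        rw [a2]
        have h3 : (fun k => (mk (X.n 3) fun k => z (e0.symm k)) (e0 k)) = z := by
          funext k
          rw [mk_apply, e0.symm_apply_apply]
        rw [h3])
      rw [norm_sq_eq e1, norm_sq_eq e2]
      refine h.trans (le_of_eq (Finset.sum_congr rfl fun k _ => ?_))
      rw [a1]⟩
  have hex : Ex X := by
    constructor
    · intro v hv
      have h := d1 (fun j => v j) (by
        funext k
        rw [← DD_apply, hv]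
        rfl)
      apply PiLp.ext
      intro j
      exact congrFun h j
    · intro i v hv
      match i with
      | 0 =>
        obtain ⟨u, hu⟩ := d2 (fun j => v j) (by
          funext k
          rw [← DD_apply, hv]
          rfl)
        refine ⟨mk (X.n 0) u, ?_⟩
        apply PiLp.ext
        intro j
        rw [DD_apply]
        exact congrFun hu j
      | 1 => exact f1 v hv
      | 2 => exact f2 v
      | i + 3 =>
        refine ⟨0, ?_⟩
        apply PiLp.ext
        intro j
        have hn : X.n (i + 3 + 1) = 0 := X.n_eq_zero _ (by omega)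
        exact (Fin.cast hn j).elim0
  refine hpdc G X w ε hO fun i => (exAt_iff X (toRed G) i).1 (hex.exAt i)

end

end Pool.Agent.Q169.PT
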