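import Pool.Agent.Q169.PT.Stm2

set_option autoImplicit false

namespace Pool.Agent.Q169.PT

open Pool.Agent.H919R4.ZS (L2)

/-- `N` is amenable: the left regular representation of `N` on `ℓ²(N)` has almost invariant
unit vectors. -/
def Amen (N : Type) [Group N] : Prop :=
  ∀ (S : Finset N) (ε : ℝ), 0 < ε →
    ∃ f : L2 N, ‖f‖ = 1 ∧ ∀ s ∈ S, ‖(reg N).hom s f - f‖ ≤ ε

/-- The pair `(G, N)` has the relative property (T): there are a finite subset `S` of `G` and
`ε > 0` such that every unitary representation of `G` with a nonzero vector `v` which is moved by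
the elements of `S` by at most `ε ‖v‖` has a nonzero vector which is invariant under `N`. -/
def RelativeT (G : Type) [Group G] (N : Subgroup G) : Prop :=
  ∃ (S : Finset G) (ε : ℝ), 0 < ε ∧
    ∀ (H : Type) [NormedAddCommGroup H] [InnerProductSpace ℂ H] [CompleteSpace H] (π : Rep G H)
      (v : H), v ≠ 0 → (∀ s ∈ S, ‖π.hom s v - v‖ ≤ ε * ‖v‖) → ∃ u, u ≠ 0 ∧ ∀ g ∈ N, π.hom g u = u

end Pool.Agent.Q169.PT
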