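import Pool.Agent.Q169.PT.Pub
import Pool.Agent.Q169.PT.Stm4

/-!
# Almost invariant vectors in `ℓ²` give Foelner sets (Namioka)
-/

set_option autoImplicit false

namespace Pool.Agent.Q169.PT.Nam

open MeasureTheory
open scoped ENNReal
open Pool.Agent.H919R4.ZS (L2 lregL)

noncomputable section

/-- layer cake -/
theorem layer {N : Type} [Group N] (u : N → ℝ) (hu : ∀ x, 0 ≤ u x) (E : Finset N)
    (hE : ∀ x, x ∉ E → u x = 0) (S : Finset N) (ε : ℝ)
    (h : ∑ s ∈ S, ∑ x ∈ E, max (u x - u (s * x)) 0 < ε * ∑ x ∈ E, u x) :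
    ∃ F : Finset N, F.Nonempty ∧
      ∀ s ∈ S, (({x | x ∈ F ∧ s * x ∉ F} : Set N).ncard : ℝ) ≤ ε * F.card := by
  classical
  by_contra hcon
  push Not at hcon
  have key : ∀ t : ℝ, ε * ∑ x ∈ E, (Set.Ico 0 (u x)).indicator (1 : ℝ → ℝ) t ≤
      ∑ s ∈ S, ∑ x ∈ E, (Set.Ico (u (s * x)) (u x)).indicator (1 : ℝ → ℝ) t := by
    intro t
    have hnn : ∀ s ∈ S, 0 ≤ ∑ x ∈ E, (Set.Ico (u (s * x)) (u x)).indicator (1 : ℝ → ℝ) t :=
      fun s _ => Finset.sum_nonneg fun x _ => Set.indicator_nonneg (fun _ _ => zero_le_one) _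
    by_cases ht : 0 ≤ t
    · set F : Finset N := E.filter fun x => t < u x with hF
      have h1 : ∑ x ∈ E, (Set.Ico 0 (u x)).indicator (1 : ℝ → ℝ) t = F.card := by
        rw [hF, Finset.card_filter, Nat.cast_sum]
        refine Finset.sum_congr rfl fun x _ => ?_
        by_cases hx : t < u x
        · rw [Set.indicator_of_mem (show t ∈ Set.Ico 0 (u x) from ⟨ht, hx⟩), if_pos hx]
          simp
        · rw [Set.indicator_of_notMem (fun h => hx h.2), if_neg hx]
          simp
      rw [h1]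
      by_cases hne : F.Nonempty
      · obtain ⟨s, hs, h2⟩ := hcon F hne
        refine h2.le.trans (le_trans ?_ (Finset.single_le_sum hnn hs))
        have h3 : ({x | x ∈ F ∧ s * x ∉ F} : Set N) = ↑(E.filter fun x => t < u x ∧ ¬ t < u (s * x)) := by
          ext x
          simp only [Set.mem_setOf_eq, Finset.coe_filter, hF, Finset.mem_filter]
          constructor
          · rintro ⟨⟨h4, h5⟩, h6⟩
            refine ⟨h4, h5, fun h7 => h6 ⟨?_, h7⟩⟩
            by_contra h8
            rw [hE _ h8] at h7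
            exact absurd h7 (not_lt.2 ht)
          · rintro ⟨h4, h5, h6⟩
            exact ⟨⟨h4, h5⟩, fun h7 => h6 h7.2⟩
        rw [h3, Set.ncard_coe_finset, Finset.card_filter, Nat.cast_sum]
        refine Finset.sum_le_sum fun x _ => ?_
        by_cases hx : t < u x ∧ ¬ t < u (s * x)
        · rw [Set.indicator_of_mem (show t ∈ Set.Ico (u (s * x)) (u x) from
            ⟨not_lt.1 hx.2, hx.1⟩), if_pos hx]
          simp
        · rw [if_neg hx]
          simpa using Set.indicator_nonneg (s := Set.Ico (u (s * x)) (u x)) (f := (1 : ℝ → ℝ))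
            (fun _ _ => zero_le_one) t
      · rw [Finset.not_nonempty_iff_eq_empty.1 hne]
        simpa using Finset.sum_nonneg hnn
    · have h1 : ∑ x ∈ E, (Set.Ico 0 (u x)).indicator (1 : ℝ → ℝ) t = 0 :=
        Finset.sum_eq_zero fun x _ => Set.indicator_of_notMem (fun h => ht h.1) _
      rw [h1, mul_zero]
      exact Finset.sum_nonneg hnn
  have hint : ∀ a b : ℝ, Integrable ((Set.Ico a b).indicator (1 : ℝ → ℝ)) := fun a b =>
    (integrable_indicator_iff measurableSet_Ico).2 (integrableOn_const (by simp) (by simp))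
  have hval : ∀ a b : ℝ, ∫ t, (Set.Ico a b).indicator (1 : ℝ → ℝ) t = max (b - a) 0 := by
    intro a b
    rw [integral_indicator_one measurableSet_Ico, Real.volume_real_Ico]
  have hmono := integral_mono (μ := volume)
    (f := fun t : ℝ => ε * ∑ x ∈ E, (Set.Ico 0 (u x)).indicator (1 : ℝ → ℝ) t)
    (g := fun t : ℝ => ∑ s ∈ S, ∑ x ∈ E, (Set.Ico (u (s * x)) (u x)).indicator (1 : ℝ → ℝ) t)
    ((integrable_finset_sum _ fun x _ => hint _ _).const_mul ε)
    (integrable_finset_sum _ fun s _ => integrable_finset_sum _ fun x _ => hint _ _) key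
  rw [integral_const_mul, integral_finset_sum _ (fun x _ => hint _ _),
    integral_finset_sum _ (fun s _ => integrable_finset_sum _ fun x _ => hint _ _)] at hmono
  have h2 : ∑ x ∈ E, ∫ t, (Set.Ico 0 (u x)).indicator (1 : ℝ → ℝ) t = ∑ x ∈ E, u x :=
    Finset.sum_congr rfl fun x _ => by rw [hval, sub_zero, max_eq_left (hu x)]
  have h3 : ∑ s ∈ S, ∫ t, ∑ x ∈ E, (Set.Ico (u (s * x)) (u x)).indicator (1 : ℝ → ℝ) t =
      ∑ s ∈ S, ∑ x ∈ E, max (u x - u (s * x)) 0 :=
    Finset.sum_congr rfl fun s _ => by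
      rw [integral_finset_sum _ (fun x _ => hint _ _)]
      exact Finset.sum_congr rfl fun x _ => hval _ _
  rw [h2, h3] at hmono
  exact absurd h (not_lt.2 hmono)

end

end Pool.Agent.Q169.PT.Nam
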