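import Mathlib

/-!
# Unitary representations, cocycles, property (T): the definitions used in the theorem

All groups are discrete, all Hilbert spaces are complex.
-/

set_option autoImplicit false

namespace Pool.Agent.Q169.PT.Pub

noncomputable section

/-- A unitary representation of the group `G` on `H`. -/
structure URep (G H : Type) [Group G] [NormedAddCommGroup H] [InnerProductSpace ℂ H] where
  /-- the action `π(g) v` -/
  act : G → H → H
  one_act : ∀ v, act 1 v = v
  mul_act : ∀ g h v, act (g * h) v = act g (act h v)
  add_act : ∀ g v w, act g (v + w) = act g v + act g w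
  smul_act : ∀ g (c : ℂ) v, act g (c • v) = c • act g v
  norm_act : ∀ g v, ‖act g v‖ = ‖v‖

/-- `b` is a cocycle for `π`: `b(gh) = b(g) + π(g) b(h)`. -/
def IsCocycle {G H : Type} [Group G] [NormedAddCommGroup H] [InnerProductSpace ℂ H]
    (π : URep G H) (b : G → H) : Prop :=
  ∀ g h, b (g * h) = b g + π.act g (b h)

/-- The square of the `ℓ²`-norm of a finitely supported function on `G`. -/
def nsq {G : Type} (f : G →₀ ℂ) : ℝ := f.sum fun _ a => ‖a‖ ^ 2

/-- The convolution of finitely supported functions on `G`: the operator `λ(c)` of the left regular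
representation applied to `f`. -/
def conv {G : Type} [Group G] (c f : G →₀ ℂ) : G →₀ ℂ :=
  c.sum fun g a => f.sum fun h b => Finsupp.single (g * h) (a * b)

/-- `π` is weakly contained in the left regular representation of `G` on `ℓ²(G)`: the operator norm
of `π(c) = ∑ c(g) π(g)` is at most the norm of `λ(c)` on `ℓ²(G)`, for all `c` in the complex group
algebra (the norm of `λ(c)` is computed on the dense subspace of finitely supported functions). -/
def WeaklyRegular {G H : Type} [Group G] [NormedAddCommGroup H] [InnerProductSpace ℂ H]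
    (π : URep G H) : Prop :=
  ∀ (c : G →₀ ℂ) (K : ℝ), 0 ≤ K → (∀ f : G →₀ ℂ, nsq (conv c f) ≤ K ^ 2 * nsq f) →
    ∀ v : H, ‖c.sum fun g a => a • π.act g v‖ ≤ K * ‖v‖

/-- Kazhdan's property (T) relative to a subgroup `N`: there are a finite subset `S` of `G` and
`ε > 0` such that every unitary representation of `G` on a Hilbert space `H` with a nonzero vector
`v` which is moved by the elements of `S` by at most `ε ‖v‖` has a nonzero vector which is invariant
under `N`. -/
def RelativeT (G : Type) [Group G] (N : Subgroup G) : Prop :=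
  ∃ (S : Finset G) (ε : ℝ), 0 < ε ∧
    ∀ (H : Type) [NormedAddCommGroup H] [InnerProductSpace ℂ H] [CompleteSpace H]
      (π : URep G H) (v : H), v ≠ 0 → (∀ s ∈ S, ‖π.act s v - v‖ ≤ ε * ‖v‖) →
        ∃ u : H, u ≠ 0 ∧ ∀ g ∈ N, π.act g u = u

/-- Kazhdan's property (T). -/
def PropertyT (G : Type) [Group G] : Prop := RelativeT G ⊤

/-- A group is amenable if it satisfies the condition of Foelner: for every finite set `S` and
`ε > 0` there is a nonempty finite set `F` with `|{x ∈ F | s x ∉ F}| ≤ ε |F|` for all `s ∈ S`. -/
def Amenable (N : Type) [Group N] : Prop :=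
  ∀ (S : Finset N) (ε : ℝ), 0 < ε → ∃ F : Finset N, F.Nonempty ∧
    ∀ s ∈ S, (({x | x ∈ F ∧ s * x ∉ F} : Set N).ncard : ℝ) ≤ ε * F.card

end

end Pool.Agent.Q169.PT.Pub
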