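import Pool.Agent.Q169.PT.Stm4
import Pool.Agent.Q38.PT.Kaz
import Pool.Agent.Q169.PT.Gns
import Pool.Agent.Q38.PT.Expk
import Pool.Agent.Q38.PT.Center
import Pool.Agent.TH38.CX.Cond

/-!
# Relative property (T) (a version of Pool/Agent/Q38/PT/Kaz.lean for a normal subgroup), and
nonamenable normal subgroups
-/

set_option autoImplicit false

namespace Pool.Agent.Q169.PT.Re

open Filter Topology
open Pool.Agent.H919R4.ZS (L2 lregL)
open Pool.Agent.Q169.PT (Rep IsCoc Van1 Amen RelativeT)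
open Pool.Agent.Q38.PT.Ka (inner_map inv_mul_cancel_apply mul_inv_cancel_apply coc_one coc_inv
  coc_norm)

noncomputable section

section

variable {G H : Type} [Group G] [NormedAddCommGroup H] [InnerProductSpace ℂ H] (π : Rep G H)
  (N : Subgroup G)

/-- the invariant vectors -/
def inv : Submodule ℂ H where
  carrier := {v | ∀ g ∈ N, π.hom g v = v}
  zero_mem' := fun g _ => map_zero _
  add_mem' := by
    intro u v hu hv g hg
    rw [map_add, hu g hg, hv g hg]
  smul_mem' := by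
    intro c v hv g hg
    rw [map_smul, hv g hg]

theorem mem_inv (v : H) : v ∈ inv π N ↔ ∀ g ∈ N, π.hom g v = v := Iff.rfl

theorem isClosed_inv : IsClosed (inv π N : Set H) := by
  have h : (inv π N : Set H) = ⋂ g ∈ N, {v | π.hom g v = v} := by
    ext v
    simp [mem_inv]
  rw [h]
  exact isClosed_biInter fun g _ => isClosed_eq (π.hom g).continuous continuous_id

theorem inv_map [hN : N.Normal] (g : G) (v : H) (hv : v ∈ inv π N) : π.hom g v ∈ inv π N := by
  intro n hn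
  have h1 := hv (g⁻¹ * n * g) (by simpa using hN.conj_mem n hn g⁻¹)
  have h2 : π.hom n (π.hom g v) = π.hom g (π.hom (g⁻¹ * n * g) v) := by
    have h3 : (π.hom n * π.hom g) v = (π.hom g * π.hom (g⁻¹ * n * g)) v := by
      rw [← map_mul, ← map_mul]
      congr 2
      group
    exact h3
  rw [h2, h1]

theorem orth_map [N.Normal] (g : G) (v : H) (hv : v ∈ (inv π N)ᗮ) : π.hom g v ∈ (inv π N)ᗮ := by
  rw [Submodule.mem_orthogonal] at hv ⊢
  intro u hu
  have h1 : u = π.hom g (π.hom g⁻¹ u) := (mul_inv_cancel_apply π g u).symm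
  rw [h1, inner_map]
  exact hv _ (inv_map π N g⁻¹ u hu)

/-- the restriction to the orthogonal complement of the invariant vectors -/
def res [N.Normal] : Rep G ((inv π N)ᗮ : Submodule ℂ H) where
  hom :=
    { toFun := fun g => ((π.hom g).comp ((inv π N)ᗮ).subtypeL).codRestrict ((inv π N)ᗮ)
        (fun v => orth_map π N g v v.2)
      map_one' := by
        ext v
        change π.hom 1 (v : H) = v
        rw [map_one]
        rfl
      map_mul' := by
        intro g h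
        ext v
        change π.hom (g * h) (v : H) = π.hom g (π.hom h v)
        rw [map_mul]
        rfl }
  norm := fun g v => π.norm g v

theorem near [N.Normal] [CompleteSpace H] {S : Finset G} {ε : ℝ} (hε : 0 < ε)
    (hT : ∀ (H : Type) [NormedAddCommGroup H] [InnerProductSpace ℂ H] [CompleteSpace H]
      (π : Rep G H) (v : H), v ≠ 0 → (∀ s ∈ S, ‖π.hom s v - v‖ ≤ ε * ‖v‖) →
        ∃ u, u ≠ 0 ∧ ∀ g ∈ N, π.hom g u = u) (v : H) {δ : ℝ} (hδ : 0 ≤ δ)
    (hv : ∀ s ∈ S, ‖π.hom s v - v‖ ≤ ε * δ) : ∃ p ∈ inv π N, ‖v - p‖ ≤ δ := by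
  have : CompleteSpace (inv π N) := (isClosed_inv π N).completeSpace_coe
  have : CompleteSpace ((inv π N)ᗮ : Submodule ℂ H) :=
    (Submodule.isClosed_orthogonal _).completeSpace_coe
  set p : H := (inv π N).starProjection v with hp
  have hpm : p ∈ inv π N := Submodule.starProjection_apply_mem _ _
  have hvm : v - p ∈ (inv π N)ᗮ := Submodule.sub_starProjection_mem_orthogonal v
  refine ⟨p, hpm, ?_⟩
  by_contra hlt
  rw [not_le] at hlt
  have h1 := hT ((inv π N)ᗮ : Submodule ℂ H) (res π N) ⟨v - p, hvm⟩ (by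
    intro h0
    have h2 : v - p = 0 := congrArg Subtype.val h0
    rw [h2, norm_zero] at hlt
    exact absurd hlt (not_lt.mpr hδ)) (by
    intro s hs
    have h2 : ‖(res π N).hom s ⟨v - p, hvm⟩ - ⟨v - p, hvm⟩‖ ≤ ‖π.hom s v - v‖ := by
      change ‖π.hom s (v - p) - (v - p)‖ ≤ _
      have h3 : π.hom s (v - p) - (v - p) ∈ (inv π N)ᗮ :=
        Submodule.sub_mem _ (orth_map π N s _ hvm) hvm
      have h4 : π.hom s p - p ∈ inv π N := Submodule.sub_mem _ (inv_map π N s p hpm) hpm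
      have h5 : inner ℂ (π.hom s p - p) (π.hom s (v - p) - (v - p)) = 0 :=
        Submodule.inner_right_of_mem_orthogonal h4 h3
      have h6 : π.hom s v - v = (π.hom s p - p) + (π.hom s (v - p) - (v - p)) := by
        rw [map_sub]
        abel
      have h7 := norm_add_sq_eq_norm_sq_add_norm_sq_of_inner_eq_zero (𝕜 := ℂ) _ _ h5
      rw [← h6] at h7
      nlinarith [norm_nonneg (π.hom s v - v), norm_nonneg (π.hom s (v - p) - (v - p)),
        mul_self_nonneg ‖π.hom s p - p‖]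
    refine h2.trans ((hv s hs).trans (mul_le_mul_of_nonneg_left ?_ hε.le))
    exact hlt.le)
  obtain ⟨u, hu0, hu⟩ := h1
  apply hu0
  have h2 : (u : H) ∈ inv π N := fun g hg => congrArg Subtype.val (hu g hg)
  have h3 : (u : H) ∈ (inv π N)ᗮ := u.2
  have h4 : inner ℂ (u : H) (u : H) = 0 := Submodule.inner_right_of_mem_orthogonal h2 h3
  exact Subtype.ext (inner_self_eq_zero.mp h4)

end

/-- relative property (T) gives bounded cocycles -/
theorem bdd (G : Type) [Group G] (N : Subgroup G) [N.Normal] (hG : RelativeT G N)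
    (H : Type) [NormedAddCommGroup H] [InnerProductSpace ℂ H] [CompleteSpace H] (π : Rep G H)
    (b : G → H) (hb : IsCoc π b) : ∃ C, ∀ g ∈ N, ‖b g‖ ≤ C := by
  obtain ⟨S, ε, hε, hT⟩ := hG
  set M : ℝ := ∑ s ∈ S, ‖b s‖ ^ 2 + 1 with hM
  have hM0 : 0 < M := by
    have : 0 ≤ ∑ s ∈ S, ‖b s‖ ^ 2 := Finset.sum_nonneg fun _ _ => sq_nonneg _
    linarith
  have hbM : ∀ s ∈ S, ‖b s‖ ^ 2 ≤ M := by
    intro s hs
    have h1 : ‖b s‖ ^ 2 ≤ ∑ s ∈ S, ‖b s‖ ^ 2 :=
      Finset.single_le_sum (f := fun s => ‖b s‖ ^ 2) (fun _ _ => sq_nonneg _) hs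
    linarith
  set t : ℝ := (ε * (1 / 4)) ^ 2 / (2 * M) with ht
  have ht0 : 0 < t := by positivity
  have h1 : ∀ g, (starRingEnd ℂ) ((Real.exp (-t * ‖b g⁻¹‖ ^ 2) : ℝ) : ℂ) =
      ((Real.exp (-t * ‖b g‖ ^ 2) : ℝ) : ℂ) := by
    intro g
    rw [Complex.conj_ofReal, coc_inv π hb, norm_neg, π.norm]
  have h2 : ∀ c : G →₀ ℂ, 0 ≤ (c.sum fun g a => c.sum fun h b' =>
      (starRingEnd ℂ) a * b' * ((Real.exp (-t * ‖b (g⁻¹ * h)‖ ^ 2) : ℝ) : ℂ)).re := by
    intro c
    have h3 := Pool.Agent.Q38.PT.Ex.expk H G c.support c b t ht0.le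
    have h4 : (c.sum fun g a => c.sum fun h b' =>
        (starRingEnd ℂ) a * b' * ((Real.exp (-t * ‖b (g⁻¹ * h)‖ ^ 2) : ℝ) : ℂ)) =
        ∑ i ∈ c.support, ∑ j ∈ c.support, (starRingEnd ℂ) (c i) * c j *
          ((Real.exp (-t * ‖b i - b j‖ ^ 2) : ℝ) : ℂ) := by
      unfold Finsupp.sum
      refine Finset.sum_congr rfl fun i _ => Finset.sum_congr rfl fun j _ => ?_
      beta_reduce
      rw [coc_norm π hb]
    rw [h4]
    exact h3
  obtain ⟨H', i1, i2, i3, π', ξ, hξ⟩ :=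
    Gn.gns G (fun g => ((Real.exp (-t * ‖b g‖ ^ 2) : ℝ) : ℂ)) h1 h2
  have hn : ‖ξ‖ ^ 2 = 1 := by
    have h3 := hξ 1
    rw [map_one, coc_one π hb, norm_zero] at h3
    change inner ℂ ξ ξ = _ at h3
    rw [inner_self_eq_norm_sq_to_K] at h3
    have h4 : ((‖ξ‖ ^ 2 : ℝ) : ℂ) = ((Real.exp (-t * 0 ^ 2) : ℝ) : ℂ) := by
      rw [← h3]
      push_cast
      rfl
    have h5 := Complex.ofReal_injective h4
    simpa using h5
  have hd : ∀ g, ‖π'.hom g ξ - ξ‖ ^ 2 = 2 - 2 * Real.exp (-t * ‖b g‖ ^ 2) := by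
    intro g
    have h3 := norm_sub_sq (𝕜 := ℂ) ξ (π'.hom g ξ)
    rw [hξ g, π'.norm, hn] at h3
    rw [norm_sub_rev, h3, RCLike.re_eq_complex_re, Complex.ofReal_re]
    ring
  obtain ⟨p, hp1, hp2⟩ := near π' N hε hT ξ (δ := 1 / 4) (by norm_num) (by
    intro s hs
    have h3 : ‖π'.hom s ξ - ξ‖ ^ 2 ≤ (ε * (1 / 4)) ^ 2 := by
      rw [hd s]
      have h4 := Real.add_one_le_exp (-t * ‖b s‖ ^ 2)
      have h5 : t * ‖b s‖ ^ 2 ≤ t * M := mul_le_mul_of_nonneg_left (hbM s hs) ht0.le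
      have h6 : 2 * (t * M) = (ε * (1 / 4)) ^ 2 := by
        rw [ht]
        field_simp
      linarith
    exact (abs_le_of_sq_le_sq' h3 (by positivity)).2)
  have hhalf : ∀ g ∈ N, ‖π'.hom g ξ - ξ‖ ≤ 1 / 2 := by
    intro g hg
    have h3 : π'.hom g ξ - ξ = π'.hom g (ξ - p) - (ξ - p) := by
      rw [map_sub, hp1 g hg]
      abel
    rw [h3]
    refine (norm_sub_le _ _).trans ?_
    rw [π'.norm]
    linarith
  refine ⟨Real.sqrt (1 / t), fun g hg => ?_⟩
  refine Real.le_sqrt_of_sq_le ?_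
  have h3 : ‖π'.hom g ξ - ξ‖ ^ 2 ≤ (1 / 2) ^ 2 :=
    pow_le_pow_left₀ (norm_nonneg _) (hhalf g hg) 2
  rw [hd g] at h3
  have h4 := Real.add_one_le_exp (t * ‖b g‖ ^ 2)
  have h5 : Real.exp (-t * ‖b g‖ ^ 2) * Real.exp (t * ‖b g‖ ^ 2) = 1 := by
    rw [← Real.exp_add]
    simp
  have h6 : 0 < Real.exp (t * ‖b g‖ ^ 2) := Real.exp_pos _
  have h7 : 7 / 8 ≤ Real.exp (-t * ‖b g‖ ^ 2) := by linarith
  have h8 : 7 / 8 * Real.exp (t * ‖b g‖ ^ 2) ≤ 1 := by
    rw [← h5]
    exact mul_le_mul_of_nonneg_right h7 h6.le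
  rw [le_div_iff₀ ht0]
  linarith

/-! ### nonamenable subgroups have no invariant vectors in tempered representations -/

section nonam

/-- the averaging element -/
def avg {G : Type} [Group G] (S : Finset G) : G →₀ ℂ :=
  ∑ s ∈ S, (Finsupp.single 1 1 + Finsupp.single s 1)

lemma sum_avg {G H : Type} [Group G] [NormedAddCommGroup H] [InnerProductSpace ℂ H] (π : Rep G H)
    (S : Finset G) (v : H) : π.sum (avg S) v = ∑ s ∈ S, (v + π.hom s v) := by
  classical
  have h0 : ∀ c c' : G →₀ ℂ, π.sum (c + c') v = π.sum c v + π.sum c' v := fun c c' => by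
    unfold Rep.sum
    rw [Finsupp.sum_add_index']
    · exact fun g => zero_smul _ _
    · exact fun g a b => add_smul _ _ _
  have h1 : ∀ g (a : ℂ), π.sum (Finsupp.single g a) v = a • π.hom g v := fun g a =>
    Finsupp.sum_single_index (zero_smul _ _)
  unfold avg
  induction S using Finset.induction_on with
  | empty => simp [Rep.sum]
  | insert s S hs ih =>
    rw [Finset.sum_insert hs, Finset.sum_insert hs, h0, ih, h0, h1, h1, one_smul, one_smul, map_one]
    rfl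

/-- a nonamenable group has a Kesten gap -/
lemma gap {N : Type} [Group N] (hN : ¬ Amen N) : ∃ (S : Finset N) (K : ℝ), 0 ≤ K ∧
    K < 2 * (S.card : ℝ) ∧ ∀ f : L2 N, ‖∑ s ∈ S, (f + (reg N).hom s f)‖ ≤ K * ‖f‖ := by
  classical
  unfold Amen at hN
  push Not at hN
  obtain ⟨S, ε, hε, hS⟩ := hN
  have hS0 : 0 < S.card := by
    rw [Finset.card_pos]
    obtain ⟨s, hs, -⟩ := hS (lp.single 2 (1 : N) (1 : ℂ)) (by
      rw [lp.norm_single (by norm_num), norm_one])
    exact ⟨s, hs⟩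
  have hS1 : (1 : ℝ) ≤ S.card := by exact_mod_cast hS0
  have hκ : Real.sqrt (4 - ε ^ 2) < 2 := by
    rw [Real.sqrt_lt' (by norm_num)]
    nlinarith
  refine ⟨S, 2 * ((S.card : ℝ) - 1) + Real.sqrt (4 - ε ^ 2), ?_, by linarith, fun f => ?_⟩
  · have := Real.sqrt_nonneg (4 - ε ^ 2)
    linarith
  by_cases hf : f = 0
  · subst hf
    simp
  have hf0 : 0 < ‖f‖ := norm_pos_iff.2 hf
  obtain ⟨s0, hs0, h1⟩ := hS (((‖f‖⁻¹ : ℝ) : ℂ) • f) (by
    rw [norm_smul, Complex.norm_real, norm_inv, norm_norm, inv_mul_cancel₀ hf0.ne'])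
  have h2 : ε * ‖f‖ ≤ ‖(reg N).hom s0 f - f‖ := by
    rw [map_smul, ← smul_sub, norm_smul, Complex.norm_real, norm_inv, norm_norm,
      inv_mul_eq_div, lt_div_iff₀ hf0] at h1
    exact h1.le
  have h3 : ‖f + (reg N).hom s0 f‖ ≤ Real.sqrt (4 - ε ^ 2) * ‖f‖ := by
    have h4 := parallelogram_law_with_norm ℂ f ((reg N).hom s0 f)
    rw [(reg N).norm, norm_sub_rev] at h4
    have h5 : ‖f + (reg N).hom s0 f‖ ^ 2 ≤ (4 - ε ^ 2) * ‖f‖ ^ 2 := by
      have h6 : (ε * ‖f‖) ^ 2 ≤ ‖(reg N).hom s0 f - f‖ ^ 2 :=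
        pow_le_pow_left₀ (by positivity) h2 2
      nlinarith
    have h7 := Real.le_sqrt_of_sq_le h5
    rwa [Real.sqrt_mul' _ (sq_nonneg _), Real.sqrt_sq (norm_nonneg _)] at h7
  calc ‖∑ s ∈ S, (f + (reg N).hom s f)‖ ≤ ∑ s ∈ S, ‖f + (reg N).hom s f‖ := norm_sum_le _ _
    _ = ‖f + (reg N).hom s0 f‖ + ∑ s ∈ S.erase s0, ‖f + (reg N).hom s f‖ :=
        (Finset.add_sum_erase S _ hs0).symm
    _ ≤ Real.sqrt (4 - ε ^ 2) * ‖f‖ + ∑ s ∈ S.erase s0, 2 * ‖f‖ := by
        refine add_le_add h3 (Finset.sum_le_sum fun s _ => (norm_add_le _ _).trans ?_)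
        rw [(reg N).norm, two_mul]
    _ = (2 * ((S.card : ℝ) - 1) + Real.sqrt (4 - ε ^ 2)) * ‖f‖ := by
        rw [Finset.sum_const, Finset.card_erase_of_mem hs0, nsmul_eq_mul,
          Nat.cast_sub hS0]
        push_cast
        ring

variable {G H : Type} [Group G] [NormedAddCommGroup H] [InnerProductSpace ℂ H]

/-- the sum of the operators `1 + λ(s)` -/
def T {N : Type} [Group N] (S : Finset N) : L2 N →L[ℂ] L2 N :=
  ∑ s ∈ S, (ContinuousLinearMap.id ℂ _ + (reg N).hom s)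

lemma T_apply {N : Type} [Group N] (S : Finset N) (f : L2 N) :
    T S f = ∑ s ∈ S, (f + (reg N).hom s f) := by
  unfold T
  rw [sum_apply]
  rfl

lemma rel_T (N : Subgroup G) (S : Finset N) :
    Pool.Agent.TH38.CX.Cond.Rel N (T S) (T (S.map ⟨Subtype.val, Subtype.val_injective⟩)) := by
  intro g f
  rw [T_apply, T_apply, Finset.sum_map, map_sum]
  refine Finset.sum_congr rfl fun s _ => ?_
  rw [map_add]
  congr 1
  have h := (Pool.Agent.TH38.CX.Cond.Gr_lreg N 1 s).1 g f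
  change Pool.Agent.TH38.CX.Cond.res N g ((1 : ℂ) • lregL (s : G) f) =
    (1 : ℂ) • lregL s (Pool.Agent.TH38.CX.Cond.res N g f) at h
  rw [one_smul, one_smul] at h
  exact h

/-- a nonamenable subgroup has no invariant vectors in a tempered representation -/
theorem no_inv (π : Rep G H) (hπ : Tempered π) (N : Subgroup G) (hN : ¬ Amen N) (v : H)
    (hv : ∀ g ∈ N, π.hom g v = v) : v = 0 := by
  obtain ⟨S, K, hK0, hK, hS⟩ := gap hN
  have h1 : ‖T S‖ ≤ K := ContinuousLinearMap.opNorm_le_bound _ hK0 fun f => by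
    rw [T_apply]; exact hS f
  have h2 := (Pool.Agent.TH38.CX.Cond.rel_norm N (rel_T N S)).trans h1
  have h3 := hπ (avg (S.map ⟨Subtype.val, Subtype.val_injective⟩)) K (fun f => by
    rw [sum_avg, ← T_apply]
    exact ((T _).le_opNorm f).trans (mul_le_mul_of_nonneg_right h2 (norm_nonneg f))) v
  rw [sum_avg, Finset.sum_map] at h3
  have h4 : ∑ s ∈ S, (v + π.hom (s : G) v) = ((2 * S.card : ℝ) : ℂ) • v := by
    rw [Finset.sum_congr rfl fun s (_ : s ∈ S) => by rw [hv s s.2, ← two_smul ℂ v], Finset.sum_const,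
      ← Nat.cast_smul_eq_nsmul ℂ, smul_smul]
    congr 1
    push_cast
    ring
  change ‖∑ s ∈ S, (v + π.hom (s : G) v)‖ ≤ _ at h3
  rw [h4, norm_smul, Complex.norm_real, Real.norm_of_nonneg (by positivity)] at h3
  by_contra h
  have h5 : 0 < ‖v‖ := norm_pos_iff.2 h
  nlinarith

/-- a cocycle of a tempered representation which is bounded on a nonamenable normal subgroup is a
coboundary -/
theorem unb [CompleteSpace H] (π : Rep G H) (hπ : Tempered π) (b : G → H) (hb : IsCoc π b)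
    (N : Subgroup G) (hn : N.Normal) (hN : ¬ Amen N) (C : ℝ) (hC : ∀ g ∈ N, ‖b g‖ ≤ C) :
    ∃ w, ∀ g, b g = π.hom g w - w := by
  let πN : Rep N H := ⟨π.hom.comp N.subtype, fun g v => π.norm g v⟩
  obtain ⟨w, hw⟩ := Pool.Agent.Q38.PT.Ce.center N H πN (fun g => b g) (fun g h => hb g h)
    ⟨C, fun g => hC g g.2⟩
  refine ⟨w, fun g => ?_⟩
  have h1 : ∀ n ∈ N, b n = π.hom n w - w := fun n hn => hw ⟨n, hn⟩
  have h2 : b g - (π.hom g w - w) = 0 := by
    refine no_inv π hπ N hN _ fun n hnN => ?_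
    have h3 : g⁻¹ * n * g ∈ N := by simpa using hn.conj_mem n hnN g⁻¹
    have h4 : n * g = g * (g⁻¹ * n * g) := by group
    have h5 : b n + π.hom n (b g) = b g + π.hom g (b (g⁻¹ * n * g)) := by
      rw [← hb, ← hb, ← h4]
    have h6 : π.hom n (π.hom g w) = π.hom g (π.hom (g⁻¹ * n * g) w) := by
      have h7 : (π.hom n * π.hom g) w = (π.hom g * π.hom (g⁻¹ * n * g)) w := by
        rw [← map_mul, ← map_mul, ← h4]
      exact h7
    rw [h1 n hnN, h1 _ h3, map_sub, ← h6] at h5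
    rw [map_sub, map_sub]
    have h8 : π.hom n (b g) = b g + (π.hom n (π.hom g w) - π.hom g w) - (π.hom n w - w) := by
      rw [← h5]
      abel
    rw [h8]
    abel
  exact sub_eq_zero.1 h2

end nonam

end

end Pool.Agent.Q169.PT.Re
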