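import Pool.Agent.Q169.PT.Stm

/-!
# Project PT, second part: property (T) in Kazhdan's form implies `H¹(G; π) = 0`

Jobs: GNS, EXPK, CENTER, KAZ.
-/

set_option autoImplicit false

namespace Pool.Agent.Q169.PT

noncomputable section

/-- Kazhdan's property (T): there are a finite set `S` and `ε > 0` such that every unitary
representation of `G` with a nonzero vector `v` which is moved by the elements of `S` by at most
`ε ‖v‖` has a nonzero invariant vector. -/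
def KazhdanT (G : Type) [Group G] : Prop :=
  ∃ (S : Finset G) (ε : ℝ), 0 < ε ∧
    ∀ (H : Type) [NormedAddCommGroup H] [InnerProductSpace ℂ H] [CompleteSpace H] (π : Rep G H)
      (v : H), v ≠ 0 → (∀ s ∈ S, ‖π.hom s v - v‖ ≤ ε * ‖v‖) → ∃ u, u ≠ 0 ∧ ∀ g, π.hom g u = u

/-- **JOB GNS.** The GNS construction for a positive definite function.

PROOF. On `M = G →₀ ℂ` consider `⟪x, y⟫ = ∑_(g, h) conj (x g) (y h) φ (g⁻¹ h)`
(`x.sum fun g a => y.sum fun h b => conj a * b * φ (g⁻¹ * h)`), a `PreInnerProductSpace.Core ℂ M`.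
`H'` is the completion of the seminormed space `M`, `ξ` the class of `single 1 1`, and `g` acts by
`Finsupp.mapDomain (g * ·)` (an isometry of `M`), extended to the completion. The file
Pool/Agent/Q169/PT/Ultra.lean (from `instance : SeminormedAddCommGroup` on) does exactly this for
another space `M` and can be copied. -/
def S_GNS : Prop :=
  ∀ (G : Type) [Group G] (φ : G → ℂ), (∀ g, (starRingEnd ℂ) (φ g⁻¹) = φ g) →
    (∀ c : G →₀ ℂ, 0 ≤ (c.sum fun g a => c.sum fun h b =>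
      (starRingEnd ℂ) a * b * φ (g⁻¹ * h)).re) →
    ∃ (H : Type) (_ : NormedAddCommGroup H) (_ : InnerProductSpace ℂ H) (_ : CompleteSpace H)
      (π : Rep G H) (ξ : H), ∀ g, inner ℂ ξ (π.hom g ξ) = φ g

/-- **JOB EXPK.** Gaussian kernels are positive definite (Schoenberg).

PROOF. `exp (-t ‖x - y‖ ^ 2) = exp (-t ‖x‖ ^ 2) exp (-t ‖y‖ ^ 2) exp (2 t Re ⟪x, y⟫)`, so (replace `c i`
by `exp (-t ‖x i‖ ^ 2) c i`) it suffices to show `0 ≤ Re ∑ conj (c i) c j exp (2 t Re ⟪x i, x j⟫)`, and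
by the power series of `exp` (limits of partial sums) `0 ≤ Re ∑ conj (c i) c j (Re ⟪x i, x j⟫) ^ n`.
The real matrix `A = (Re ⟪x i, x j⟫)_(i, j ∈ s)` is positive semidefinite, so `A = Bᵀ B`
(`Matrix.posSemidef_iff_eq_conjTranspose_mul_self`; or Mathlib's Schur product theorem
`Matrix.PosSemidef.hadamard`, if present), `A i j = ∑_k B k i * B k j` and
`(A i j) ^ n = ∑_(f : Fin n → ι) (∏_m B (f m) i) (∏_m B (f m) j)` (`Finset.prod_univ_sum`), so the
sum is `∑_f ‖∑_i c i ∏_m B (f m) i‖ ^ 2 ≥ 0`. -/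
def S_EXPK : Prop :=
  ∀ (H : Type) [NormedAddCommGroup H] [InnerProductSpace ℂ H] (ι : Type) (s : Finset ι)
    (c : ι → ℂ) (x : ι → H) (t : ℝ), 0 ≤ t →
    0 ≤ (∑ i ∈ s, ∑ j ∈ s, (starRingEnd ℂ) (c i) * c j *
      ((Real.exp (-t * ‖x i - x j‖ ^ 2) : ℝ) : ℂ)).re

/-- **JOB CENTER.** A bounded cocycle is a coboundary.

PROOF. `A g v = π(g) v + b(g)` is an affine isometric action; `A g (b h) = b (g h)`. For `v : H` let
`f v = sup_g ‖v - b g‖`, and `r = inf_v f v`. By the parallelogram identity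
`‖(v + w) / 2 - b g‖ ^ 2 = (‖v - b g‖ ^ 2 + ‖w - b g‖ ^ 2) / 2 - ‖v - w‖ ^ 2 / 4`, so
`‖v - w‖ ^ 2 ≤ 2 (f v) ^ 2 + 2 (f w) ^ 2 - 4 r ^ 2`. So a minimising sequence is a Cauchy sequence,
there is a minimiser `w₀`, and it is unique. As `f (A g v) = f v` (the set `b G` is invariant under
the isometries `A g`), `A g w₀ = w₀`, so `b g = w₀ - π(g) w₀`; take `w = - w₀`. -/
def S_CENTER : Prop :=
  ∀ (G H : Type) [Group G] [NormedAddCommGroup H] [InnerProductSpace ℂ H] [CompleteSpace H]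
    (π : Rep G H) (b : G → H), IsCoc π b → (∃ C, ∀ g, ‖b g‖ ≤ C) →
    ∃ w, ∀ g, b g = π.hom g w - w

/-- **JOB KAZ** (hypotheses: GNS, EXPK, CENTER). Property (T) implies that all cocycles are
coboundaries (Delorme).

PROOF. Let `S`, `ε` be as in `KazhdanT`. (1) Let `π` be a unitary representation, `P` the orthogonal
projection to the closed subspace `H₀` of the invariant vectors, `v' = v - P v`, which is in the
invariant Hilbert space `H₀ᗮ`, on which there are no invariant vectors. If `v' ≠ 0` then by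
`KazhdanT` for the restriction of `π` to `H₀ᗮ` there is an `s ∈ S` with
`ε ‖v'‖ < ‖π(s) v' - v'‖ = ‖π(s) v - v‖`. (2) Let `b` be a cocycle for `π`, `t > 0`,
`φ g = exp (-t ‖b g‖ ^ 2)`. Since `b (g⁻¹ h) = π(g⁻¹) (b h - b g)`, `φ (g⁻¹ h) =
exp (-t ‖b g - b h‖ ^ 2)`, so EXPK and GNS give `π'`, `ξ` with `⟪ξ, π'(g) ξ⟫ = φ g`, `‖ξ‖ = 1`
(`b 1 = 0`). `‖π'(s) ξ - ξ‖ ^ 2 = 2 - 2 φ s < (ε / 4) ^ 2` for all `s ∈ S` if `t` is small. By (1)
`‖ξ - P ξ‖ < 1 / 4`, and for all `g`, since `π'(g) P ξ = P ξ`,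
`‖π'(g) ξ - ξ‖ ≤ 2 ‖ξ - P ξ‖ ≤ 1 / 2`, so `2 - 2 φ g ≤ 1 / 4`, `φ g ≥ 7 / 8`: `‖b g‖ ^ 2` is bounded by
`log (8 / 7) / t`. Now use CENTER. -/
def S_KAZ : Prop :=
  ∀ (G : Type) [Group G], KazhdanT G →
    ∀ (H : Type) [NormedAddCommGroup H] [InnerProductSpace ℂ H] [CompleteSpace H] (π : Rep G H),
      Van1 π

end

end Pool.Agent.Q169.PT
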