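import Pool.Agent.H919R4.ZS.Defs

/-!
# Project PT, third part: resolutions of arbitrary length

Jobs: COHI, SHORT.
-/

set_option autoImplicit false

namespace Pool.Agent.Q169.PT

open scoped Matrix
open Pool.Agent.H919R4.ZS (FinRes)

/-- **JOB COHI.** The cohomology with coefficients in `ℤ[G]` does not depend on the resolution.

PROOF. Pool/Agent/TH38/ZT/Gen.lean has `exists_chain_map` and `exists_homotopy` (used there in
`ex_indep` for the homology): chain maps `f : X → X'`, `f' : X' → X` (matrices `F i`, `F' i`) and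
homotopies `F F' ≃ 1`, `F' F ≃ 1`. `y ↦ F i *ᵥ y` maps `Fin (X'.n i) → ℤ[G]` to
`Fin (X.n i) → ℤ[G]`, commutes with the coboundaries, and gives the isomorphism of cohomology. -/
def S_COHI : Prop :=
  ∀ (G : Type) [Group G] (X X' : FinRes G) (i : ℕ), Nonempty (X.cohomology i ≃+ X'.cohomology i)

/-- **JOB SHORT.** -/
def S_SHORT : Prop :=
  ∀ (G : Type) [Group G] (X : FinRes G), (∀ i, 3 < i → Subsingleton (X.cohomology i)) →
    ∃ X' : FinRes G, X'.len ≤ 3

end Pool.Agent.Q169.PT
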